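import Pool.Agent.N162.HN.Coord
import Pool.Agent.W602.GT.Defs

/-!
# Project HN, second part: images of smooth hypersurfaces are unirational or of general type

Statements of the parts. Cycles with coefficients in `Ω`.
-/

set_option autoImplicit false

open FF Pool.Agent.W603.LV Pool.Agent.Y184.NT Pool.Agent.N162.BC IntermediateField MvPolynomial
open Pool.Agent.N162.CV (PRel MonicY)

namespace Pool.Agent.N162.HN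

section

variable {n : ℕ} {Ω : Type} [Field Ω]

/-- A cycle `c` with coefficients in `Ω`, with the cycles `cyc i` of the curves. -/
structure ConfO (r : ℕ) (κ : (Fin (n + 2) → Ω) → Ω) (m N d : ℕ)
    (c : (Fin (n + 2) → Ω) →₀ Ω) (g : Fin r → ℕ) (on : Fin r → (Fin (n + 2) → Ω) → Prop)
    (cyc : Fin r → (Fin (n + 2) → Ω) →₀ ℤ) (A : Fin n → MvPolynomial (Fin 2) Ω) : Prop where
  hn : 1 ≤ n
  hd : m + n + 2 = d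
  hm : 7 * N + 4 ≤ m
  hN : (n + 1) * N < d
  hc0 : ∀ p, c p ≠ 0 → p 0 = 1 ∧ κ p ≠ 0
  hcr : ∀ P : MvPolynomial (Fin (n + 2)) Ω, P.IsHomogeneous m →
    ∑ p ∈ c.support, c p * (κ p * eval p P) = 0
  hcard : c.support.card < (N + 1) * (m + 2 - N)
  hA : ∀ l, MonicY (A l)
  hA1 : ∀ l, 1 ≤ (A l).totalDegree
  hAN : ∀ l, (A l).totalDegree ≤ N
  hAc : ∀ p, c p ≠ 0 → ∀ l, eval ![p 1, p l.succ.succ] (A l) = 0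
  hcy : ∀ i p, g i ≤ N → c p ≠ 0 → on i p → cyc i p ≠ 0
  cyc0 : ∀ i p, cyc i p ≠ 0 → p 0 = 1 ∧ κ p ≠ 0 ∧ on i p
  cycnn : ∀ i p, 0 ≤ cyc i p
  cycdeg : ∀ i (Q : Finset (Fin (n + 2) → Ω)), ∑ p ∈ Q, cyc i p ≤ (g i * d : ℕ)
  cycr : ∀ i, Rel m κ (cyc i)
  proj : ∀ Γ : Finset (Fin (n + 2) → Ω), (∀ p ∈ Γ, p 0 = 1) → ∃ bad : Finset Ω, ∀ t : Ω, t ∉ bad →
    ∃ G : Fin r → MvPolynomial (Fin 2) Ω, Prj Γ g on A t G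

/-- The relations given by the residue forms `P Res` between the points of a cycle. -/
def RelF {K : Type} [Field K] [Algebra ℂ K] [Algebra ℂ Ω] (F : MvPolynomial (Fin (n + 2)) ℂ)
    (x : Fin (n + 2) → K) (m : ℕ) (f : (K →ₐ[ℂ] Ω) →₀ Ω) : Prop :=
  ∀ c : Fin (n + 2) → K, ∑ l, aeval x (pderiv l F) * c l = 1 →
    ∀ (D : Fin n → Derivation ℂ Ω Ω) (P : MvPolynomial (Fin (n + 2)) Ω), P.IsHomogeneous m →
      ∑ σ ∈ f.support, f σ * ((rows (fun j => σ (c j)) (pt x σ) D).det * eval (pt x σ) P) = 0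

end

/-- HO/MAINO: the combinatorial part for coefficients in `Ω` and two values. -/
def StMAINO : Prop := ∀ (n r : ℕ) (Ω : Type) [Field Ω] [IsAlgClosed Ω] [CharZero Ω]
  (κ : (Fin (n + 2) → Ω) → Ω) (m N d : ℕ) (c : (Fin (n + 2) → Ω) →₀ Ω) (g : Fin r → ℕ)
  (on : Fin r → (Fin (n + 2) → Ω) → Prop) (cyc : Fin r → (Fin (n + 2) → Ω) →₀ ℤ)
  (A : Fin n → MvPolynomial (Fin 2) Ω), ConfO r κ m N d c g on cyc A →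
  3 * (N + n - 1) < d → (∃ a b : Ω, ∀ p, c p = 0 ∨ c p = a ∨ c p = b) →
  ∃ (J : Finset (Fin r)) (a : Fin r → Ω), ∑ i ∈ J, g i ≤ N ∧
    (∀ p, c p = ∑ j ∈ J, a j * (cyc j p : Ω)) ∧
    ∀ j ∈ J, ∃ p, c p ≠ 0 ∧ c p = a j * (cyc j p : Ω)

/-- HO/CONFR: the configuration of points and curves given by a cycle with the residue relations. -/
def StCONFR : Prop := ∀ (n : ℕ) (K Ω : Type) [Field K] [Algebra ℂ K] [Field Ω] [Algebra ℂ Ω]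
  [IsAlgClosed Ω] (F : MvPolynomial (Fin (n + 2)) ℂ) (d m N : ℕ), 1 ≤ n → Sm F →
  F.IsHomogeneous d → m + n + 2 = d → 7 * N + 4 ≤ m → (n + 1) * N < d →
  eval (Pi.single (Fin.last (n + 1)) 1) F ≠ 0 → ∀ x : Fin (n + 2) → K, x 0 = 1 → aeval x F = 0 →
  IntermediateField.adjoin ℂ (Set.range x) = ⊤ → Algebra.trdeg ℂ K = n →
  Algebra.trdeg ℂ Ω = n → Relns F x → ∀ f : (K →ₐ[ℂ] Ω) →₀ ℤ,
  RelF F x m (f.mapRange (Int.cast : ℤ → Ω) Int.cast_zero) →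
  f.support.card < (N + 1) * (m + 2 - N) → ∀ A : Fin n → MvPolynomial (Fin 2) Ω,
  (∀ l, MonicY (A l) ∧ 1 ≤ (A l).totalDegree ∧ (A l).totalDegree ≤ N) →
  (∀ σ : K →ₐ[ℂ] Ω, f σ ≠ 0 → ∀ l : Fin n, eval ![pt x σ 1, pt x σ l.succ.succ] (A l) = 0) →
  ∃ (κ : (Fin (n + 2) → Ω) → Ω) (r : ℕ) (C : Fin r → Crv n Ω)
    (cyc : Fin r → (Fin (n + 2) → Ω) →₀ ℤ) (c : (Fin (n + 2) → Ω) →₀ ℤ),
    (∀ i l, aeval ![(C i).X 1, (C i).X l.succ.succ] (A l) = 0) ∧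
    (∀ p : Fin (n + 2) → Ω, p 0 = 1 → (∀ l : Fin n, eval ![p 1, p l.succ.succ] (A l) = 0) →
      ∃ i, (C i).On p) ∧
    (∀ i j, i ≠ j → ∃ P : MvPolynomial (Fin (n + 2)) Ω, aeval (C i).X P = 0 ∧
      aeval (C j).X P ≠ 0) ∧
    (∀ σ : K →ₐ[ℂ] Ω, c (pt x σ) = f σ) ∧ (∀ p, c p ≠ 0 → ∃ σ : K →ₐ[ℂ] Ω, p = pt x σ) ∧
    Conf r κ m N d c (fun i => (C i).deg) (fun i p => (C i).On p) cyc A ∧
    (∀ i p, cyc i p ≠ 0 → ∃ σ : K →ₐ[ℂ] Ω, p = pt x σ) ∧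
    ∀ i, N < (C i).deg ∨ (cmp Ω F (C i).X = 0 ∧ cyc i = 0) ∨ (cmp Ω F (C i).X ≠ 0 ∧
      ∀ σ : K →ₐ[ℂ] Ω, cyc i (pt x σ) = mu (C i).X (cmp Ω F (C i).X) (pt x σ))

/-- HO/CONFO: the configuration given by a cycle with coefficients in `Ω`. -/
def StCONFO : Prop := ∀ (n : ℕ) (K Ω : Type) [Field K] [Algebra ℂ K] [Field Ω] [Algebra ℂ Ω]
  [IsAlgClosed Ω] (F : MvPolynomial (Fin (n + 2)) ℂ) (d m N : ℕ), 1 ≤ n → Sm F →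
  F.IsHomogeneous d → m + n + 2 = d → 7 * N + 4 ≤ m → (n + 1) * N < d →
  eval (Pi.single (Fin.last (n + 1)) 1) F ≠ 0 → ∀ x : Fin (n + 2) → K, x 0 = 1 → aeval x F = 0 →
  IntermediateField.adjoin ℂ (Set.range x) = ⊤ → Algebra.trdeg ℂ K = n →
  Algebra.trdeg ℂ Ω = n → Relns F x → ∀ f : (K →ₐ[ℂ] Ω) →₀ Ω, RelF F x m f →
  f.support.card < (N + 1) * (m + 2 - N) → ∀ A : Fin n → MvPolynomial (Fin 2) Ω,
  (∀ l, MonicY (A l) ∧ 1 ≤ (A l).totalDegree ∧ (A l).totalDegree ≤ N) →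
  (∀ σ : K →ₐ[ℂ] Ω, f σ ≠ 0 → ∀ l : Fin n, eval ![pt x σ 1, pt x σ l.succ.succ] (A l) = 0) →
  ∃ (κ : (Fin (n + 2) → Ω) → Ω) (r : ℕ) (g : Fin r → ℕ)
    (on : Fin r → (Fin (n + 2) → Ω) → Prop)
    (cyc : Fin r → (Fin (n + 2) → Ω) →₀ ℤ) (c : (Fin (n + 2) → Ω) →₀ Ω),
    (∀ σ : K →ₐ[ℂ] Ω, c (pt x σ) = f σ) ∧ (∀ p, c p ≠ 0 → ∃ σ : K →ₐ[ℂ] Ω, p = pt x σ) ∧
    ConfO r κ m N d c g on cyc A ∧
    (∀ i p, cyc i p ≠ 0 → ∃ σ : K →ₐ[ℂ] Ω, p = pt x σ) ∧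
    ∀ f' : (K →ₐ[ℂ] Ω) →₀ Ω, (∀ P : MvPolynomial (Fin (n + 2)) Ω, P.IsHomogeneous m →
      ∑ σ ∈ f'.support, f' σ * (κ (pt x σ) * eval (pt x σ) P) = 0) → RelF F x m f'

/-- HO/PENR: as `StPEN`, for the residue relations. -/
def StPENR : Prop := ∀ (n : ℕ) (L K Ω : Type) [Field L] [Algebra ℂ L] [Field K] [Algebra ℂ K]
  [Algebra L K] [IsScalarTower ℂ L K] [FiniteDimensional L K] [Field Ω] [Algebra ℂ Ω] [Algebra L Ω]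
  [IsScalarTower ℂ L Ω] [IsAlgClosed Ω] [Algebra.IsAlgebraic L Ω]
  (F : MvPolynomial (Fin (n + 2)) ℂ) (d m N : ℕ), 1 ≤ n → Sm F → F.IsHomogeneous d →
  m + n + 2 = d → 7 * N + 4 ≤ m → (n + 1) * N < d → 2 * (N + n - 1) < d →
  eval (Pi.single (Fin.last (n + 1)) 1) F ≠ 0 → ∀ x : Fin (n + 2) → K, x 0 = 1 → aeval x F = 0 →
  IntermediateField.adjoin ℂ (Set.range x) = ⊤ → Algebra.trdeg ℂ K = n → Relns F x →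
  Module.finrank L K < (N + 1) * (m + 2 - N) →
  (∀ f : (K →ₐ[ℂ] Ω) →₀ Ω, (∀ σ : K →ₐ[ℂ] Ω, (f σ = 1 ∧ Fix L σ) ∨ (f σ = 0 ∧ ¬ Fix L σ)) →
    RelF F x m f) →
  ∀ A : Fin n → MvPolynomial (Fin 2) L,
  (∀ l, MonicY (A l) ∧ 1 ≤ (A l).totalDegree ∧ (A l).totalDegree ≤ N ∧
    aeval ![x 1, x l.succ.succ] (A l) = 0) → ∃ C : Crv n Ω, C.deg ≤ N ∧ Pen L F x C

/-- HO/RELM: change of coordinates -/
def StRELM : Prop := ∀ (n : ℕ) (K Ω : Type) [Field K] [Algebra ℂ K] [Field Ω] [Algebra ℂ Ω]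
  (F : MvPolynomial (Fin (n + 2)) ℂ) (x : Fin (n + 2) → K) (m : ℕ)
  (M M' : Matrix (Fin (n + 2)) (Fin (n + 2)) ℚ), M * M' = 1 → M' * M = 1 →
  ∀ f : (K →ₐ[ℂ] Ω) →₀ Ω, RelF F x m f → RelF (sub M' F) (act M x) m f

/-- HO/TAU: automorphisms which change the ratio -/
def StTAU : Prop := ∀ (Ω : Type) [Field Ω] [Algebra ℂ Ω] [IsAlgClosed Ω]
  (N : IntermediateField ℂ Ω) (l : Ω) (δ : Derivation ℂ Ω Ω),
  (∀ a : Ω, IsAlgebraic N a → a ∈ N) → l ∉ N → Algebra.IsAlgebraic N⟮l⟯ Ω →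
  (∀ a ∈ N, δ a = 0) → δ l = 1 → ∀ g : Ω, g ≠ 0 →
  ∃ τ : Ω ≃ₐ[N] Ω, ∀ q : ℚ, δ (τ l) * τ g ≠ (q : Ω) * g

/-- HO/GTR: varieties which are not of general type: relations between two fibres. -/
def StGTR : Prop := ∀ (n : ℕ) (L K Ω : Type) [Field L] [Algebra ℂ L] [Field K] [Algebra ℂ K]
  [Algebra L K] [IsScalarTower ℂ L K] [FiniteDimensional L K] [Algebra.EssFiniteType ℂ L]
  [Algebra.EssFiniteType ℂ K] [Field Ω] [Algebra ℂ Ω] [Algebra L Ω] [IsScalarTower ℂ L Ω]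
  [IsAlgClosed Ω] [Algebra.IsAlgebraic L Ω]
  (F : MvPolynomial (Fin (n + 2)) ℂ) (d m : ℕ), 1 ≤ n → Sm F → F.IsHomogeneous d →
  m + n + 2 = d → ∀ x : Fin (n + 2) → K, x 0 = 1 → aeval x F = 0 →
  IntermediateField.adjoin ℂ (Set.range x) = ⊤ → Algebra.trdeg ℂ K = n →
  ¬ Pool.Agent.W602.GT.GeneralType ℂ L n →
  ∀ f : (K →ₐ[ℂ] Ω) →₀ Ω, (∀ σ : K →ₐ[ℂ] Ω, (f σ = 1 ∧ Fix L σ) ∨ (f σ = 0 ∧ ¬ Fix L σ)) →
  RelF F x m f ∨ ∃ (τ : Ω ≃ₐ[ℂ] Ω) (lam : Ω), (∀ q : ℚ, (q : Ω) ≠ lam) ∧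
    (∃ a : L, τ (algebraMap L Ω a) ≠ algebraMap L Ω a) ∧
    RelF F x m (f - lam • f.mapDomain (fun σ => (τ : Ω →ₐ[ℂ] Ω).comp σ))

/-- HO/GTC: two fibres with a relation with irrational coefficient -/
def StGTC : Prop := ∀ (n : ℕ) (L K Ω : Type) [Field L] [Algebra ℂ L] [Field K] [Algebra ℂ K]
  [Algebra L K] [IsScalarTower ℂ L K] [FiniteDimensional L K] [Field Ω] [Algebra ℂ Ω] [Algebra L Ω]
  [IsScalarTower ℂ L Ω] [IsAlgClosed Ω] [Algebra.IsAlgebraic L Ω]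
  (F : MvPolynomial (Fin (n + 2)) ℂ) (d m N : ℕ), 1 ≤ n → Sm F → F.IsHomogeneous d →
  m + n + 2 = d → 7 * N + 4 ≤ m → (n + 1) * N < d → 3 * (N + n - 1) < d → ∀ x : Fin (n + 2) → K, x 0 = 1 →
  aeval x F = 0 → IntermediateField.adjoin ℂ (Set.range x) = ⊤ → Algebra.trdeg ℂ K = n →
  2 * Module.finrank L K < (N + 1) * (m + 2 - N) →
  ∀ f : (K →ₐ[ℂ] Ω) →₀ Ω, (∀ σ : K →ₐ[ℂ] Ω, (f σ = 1 ∧ Fix L σ) ∨ (f σ = 0 ∧ ¬ Fix L σ)) →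
  ∀ (τ : Ω ≃ₐ[ℂ] Ω) (lam : Ω), (∀ q : ℚ, (q : Ω) ≠ lam) →
    (∃ a : L, τ (algebraMap L Ω a) ≠ algebraMap L Ω a) →
    RelF F x m (f - lam • f.mapDomain (fun σ => (τ : Ω →ₐ[ℂ] Ω).comp σ)) → RelF F x m f

end Pool.Agent.N162.HN
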