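import Pool.Agent.N162.CV.Stm
import Pool.Agent.N162.CW.Stm

/-!
# Project HN: cycles with null trace on smooth hypersurfaces of any dimension, and images of smooth
hypersurfaces with geometric genus zero

Statements of the parts. The hypersurface has dimension `n` and is contained in projective
`(n + 1)`-space; points have the coordinates `0, 1, …, n + 1`, the coordinate `0` is one. `E` is the
function field of an irreducible curve over `Ω`, `X` are its coordinates.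
-/

set_option autoImplicit false

open FF Pool.Agent.W603.LV Pool.Agent.Y184.NT Pool.Agent.N162.BC IntermediateField MvPolynomial
open Pool.Agent.N162.CV (PRel MonicY)

namespace Pool.Agent.N162.HN

section

variable {n : ℕ} {Ω E : Type} [Field Ω] [Field E] [Algebra Ω E]

/-- The point `v` of the smooth model of the curve is mapped to the point `p` of affine space. -/
def At (v : Place Ω E) (X : Fin (n + 2) → E) (p : Fin (n + 2) → Ω) : Prop :=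
  ∀ i, Ge v 1 (X i - algebraMap Ω E (p i))

/-- The total order of vanishing of `f` at the places over the point `p`. -/
noncomputable def mu (X : Fin (n + 2) → E) (f : E) (p : Fin (n + 2) → Ω) : ℤ :=
  ∑ᶠ v ∈ {v : Place Ω E | At v X p}, v.ord f

/-- The coordinates of the curve are in good position: the poles of `X 1` are the poles of the
coordinates, and `X i / X 1` is regular there. -/
structure Good (Ω : Type) {E : Type} [Field Ω] [Field E] [Algebra Ω E] (X : Fin (n + 2) → E) :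
    Prop where
  one : X 0 = 1
  tr : Transcendental Ω (X 1)
  fin : ∀ v : Place Ω E, Ge v 0 (X 1) → ∀ i, Ge v 0 (X i)
  inf : ∀ v : Place Ω E, v.ord (X 1) < 0 → ∀ i, Ge v 0 (X i / X 1)
  gen : IntermediateField.adjoin Ω (Set.range X) = ⊤

/-- The value of the form `F` on the coordinates. -/
noncomputable def cmp (Ω : Type) {E : Type} [Field Ω] [Field E] [Algebra Ω E] [Algebra ℂ Ω]
    (F : MvPolynomial (Fin (n + 2)) ℂ) (X : Fin (n + 2) → E) : E :=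
  aeval X (map (algebraMap ℂ Ω) F)

/-- the projection to the plane -/
def pr (t : Ω) (p : Fin (n + 2) → Ω) : Fin 2 → Ω := ![p 1, ∑ l : Fin n, t ^ (l : ℕ) * p l.succ.succ]

/-- the linear map given by a rational matrix -/
def act {R : Type} [Field R] (M : Matrix (Fin (n + 2)) (Fin (n + 2)) ℚ) (v : Fin (n + 2) → R) :
    Fin (n + 2) → R :=
  fun i => ∑ j, (M i j : R) * v j

/-- The point of affine space which is given by an embedding. -/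
def pt {K : Type} [Field K] [Algebra ℂ K] [Algebra ℂ Ω] (x : Fin (n + 2) → K) (σ : K →ₐ[ℂ] Ω) :
    Fin (n + 2) → Ω := fun j => σ (x j)

/-- the weighted sum of the values of `P` -/
noncomputable def Lam (κ : (Fin (n + 2) → Ω) → Ω) (P : MvPolynomial (Fin (n + 2)) Ω)
    (c : (Fin (n + 2) → Ω) →₀ ℤ) : Ω :=
  ∑ p ∈ c.support, (c p : Ω) * (κ p * eval p P)

/-- all forms of degree `m` have weighted sum zero -/
def Rel (m : ℕ) (κ : (Fin (n + 2) → Ω) → Ω) (c : (Fin (n + 2) → Ω) →₀ ℤ) : Prop :=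
  ∀ P : MvPolynomial (Fin (n + 2)) Ω, P.IsHomogeneous m → Lam κ P c = 0

/-- the points of `c` and of the `cyc i` -/
noncomputable def Gam {r : ℕ} (c : (Fin (n + 2) → Ω) →₀ ℤ)
    (cyc : Fin r → (Fin (n + 2) → Ω) →₀ ℤ) : Finset (Fin (n + 2) → Ω) :=
  by classical exact c.support ∪ Finset.univ.biUnion fun i => (cyc i).support

/-- The equations `G i` of the projections of the curves. -/
structure Prj {r : ℕ} (Γ : Finset (Fin (n + 2) → Ω)) (g : Fin r → ℕ)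
    (on : Fin r → (Fin (n + 2) → Ω) → Prop) (A : Fin n → MvPolynomial (Fin 2) Ω) (t : Ω)
    (G : Fin r → MvPolynomial (Fin 2) Ω) : Prop where
  irr : ∀ i, Irreducible (G i)
  mon : ∀ i, MonicY (G i)
  deg : ∀ i, (G i).totalDegree = g i
  assoc : ∀ i j, i ≠ j → ¬ Associated (G i) (G j)
  iff : ∀ i, ∀ p ∈ Γ, (eval (pr t p) (G i) = 0 ↔ on i p)
  fin : ∀ P : MvPolynomial (Fin 2) Ω, (∀ i, ¬ G i ∣ P) → {p : Fin (n + 2) → Ω | p 0 = 1 ∧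
    (∀ l, eval ![p 1, p l.succ.succ] (A l) = 0) ∧ eval (pr t p) P = 0}.Finite

/-- A cycle `c` with the cycles `cyc i` of the curves. -/
structure Conf (r : ℕ) (κ : (Fin (n + 2) → Ω) → Ω) (m N d : ℕ)
    (c : (Fin (n + 2) → Ω) →₀ ℤ) (g : Fin r → ℕ) (on : Fin r → (Fin (n + 2) → Ω) → Prop)
    (cyc : Fin r → (Fin (n + 2) → Ω) →₀ ℤ) (A : Fin n → MvPolynomial (Fin 2) Ω) : Prop where
  hn : 1 ≤ n
  hd : m + n + 2 = d
  hm : 7 * N + 4 ≤ m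
  hN : (n + 1) * N < d
  hc0 : ∀ p, c p ≠ 0 → p 0 = 1 ∧ κ p ≠ 0
  hcr : Rel m κ c
  hcard : c.support.card < (N + 1) * (m + 2 - N)
  hA : ∀ l, MonicY (A l)
  hA1 : ∀ l, 1 ≤ (A l).totalDegree
  hAN : ∀ l, (A l).totalDegree ≤ N
  hAc : ∀ p, c p ≠ 0 → ∀ l, eval ![p 1, p l.succ.succ] (A l) = 0
  hcy : ∀ i p, g i ≤ N → c p ≠ 0 → on i p → cyc i p ≠ 0
  cyc0 : ∀ i p, cyc i p ≠ 0 → p 0 = 1 ∧ κ p ≠ 0 ∧ on i p
  cycnn : ∀ i p, 0 ≤ cyc i p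
  cycdeg : ∀ i (Q : Finset (Fin (n + 2) → Ω)), ∑ p ∈ Q, cyc i p ≤ (g i * d : ℕ)
  cycr : ∀ i, Rel m κ (cyc i)
  proj : ∀ Γ : Finset (Fin (n + 2) → Ω), (∀ p ∈ Γ, p 0 = 1) → ∃ bad : Finset Ω, ∀ t : Ω, t ∉ bad →
    ∃ G : Fin r → MvPolynomial (Fin 2) Ω, Prj Γ g on A t G

end

/-- the number of the points of `c` on the curve `i` -/
noncomputable def cnt {n : ℕ} {Ω : Type} [Field Ω] {r : ℕ} (c : (Fin (n + 2) → Ω) →₀ ℤ)
    (on : Fin r → (Fin (n + 2) → Ω) → Prop) (i : Fin r) : ℕ :=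
  {p | c p ≠ 0 ∧ on i p}.ncard

/-! ### The combinatorial part -/

/-- HN/B1: coordinates in which the points of a cycle with few points are on a curve
`A l (x, z l) = 0`. -/
def StB1 : Prop := ∀ (n : ℕ) (Ω : Type) [Field Ω] [Algebra ℂ Ω] [IsAlgClosed Ω] (ι : Type)
  (S : Finset ι) (q : ι → Fin (n + 2) → Ω) (lam : ι → Ω) (m N : ℕ)
  (F : MvPolynomial (Fin (n + 2)) ℂ), 1 ≤ n → S.Nonempty →
  (∀ i ∈ S, q i 0 = 1) → Set.InjOn q S → (∀ i ∈ S, lam i ≠ 0) →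
  (∀ P : MvPolynomial (Fin (n + 2)) Ω, P.IsHomogeneous m → ∑ i ∈ S, lam i * eval (q i) P = 0) →
  7 * N + 4 ≤ m → S.card < (N + 1) * (m + 2 - N) →
  (∃ o : Fin (n + 2) → ℂ, o 0 = 0 ∧ eval o F ≠ 0) →
  ∃ (M M' : Matrix (Fin (n + 2)) (Fin (n + 2)) ℚ) (A : Fin n → MvPolynomial (Fin 2) Ω),
    M * M' = 1 ∧ M' * M = 1 ∧ (∀ j, M 0 j = if j = 0 then 1 else 0) ∧
    (∀ l, MonicY (A l) ∧ 1 ≤ (A l).totalDegree ∧ (A l).totalDegree ≤ N ∧
      ∀ i ∈ S, eval ![act M (q i) 1, act M (q i) l.succ.succ] (A l) = 0) ∧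
    eval (fun j => (M' j (Fin.last (n + 1)) : ℂ)) F ≠ 0

/-- HN/SP: points on `n + 1` hypersurfaces in affine `(n + 1)`-space, `n` of which are cylinders. -/
def StSP : Prop := ∀ (n : ℕ) (Ω : Type) [Field Ω] [IsAlgClosed Ω] (S : Finset (Fin (n + 1) → Ω))
  (lam : (Fin (n + 1) → Ω) → Ω) (m : ℕ) (A : Fin n → MvPolynomial (Fin 2) Ω)
  (C : MvPolynomial (Fin (n + 1)) Ω),
  S.Nonempty → (∀ q ∈ S, lam q ≠ 0) →
  (∀ P : MvPolynomial (Fin (n + 1)) Ω, P.totalDegree ≤ m → ∑ q ∈ S, lam q * eval q P = 0) →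
  (∀ l, MonicY (A l)) → (∀ l, 1 ≤ (A l).totalDegree) →
  (∀ q ∈ S, (∀ l : Fin n, eval ![q 0, q l.succ] (A l) = 0) ∧ eval q C = 0) →
  {q : Fin (n + 1) → Ω | (∀ l : Fin n, eval ![q 0, q l.succ] (A l) = 0) ∧ eval q C = 0}.Finite →
  m + n + 2 ≤ ∑ l, (A l).totalDegree + C.totalDegree

/-- HN/MAIN: the combinatorial part. -/
def StMAIN : Prop := ∀ (n r : ℕ) (Ω : Type) [Field Ω] [IsAlgClosed Ω] [CharZero Ω]
  (κ : (Fin (n + 2) → Ω) → Ω) (m N d : ℕ) (c : (Fin (n + 2) → Ω) →₀ ℤ) (g : Fin r → ℕ)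
  (on : Fin r → (Fin (n + 2) → Ω) → Prop) (cyc : Fin r → (Fin (n + 2) → Ω) →₀ ℤ)
  (A : Fin n → MvPolynomial (Fin 2) Ω), Conf r κ m N d c g on cyc A →
  ((∃ L : ℕ, ∑ p ∈ c.support, (c p).natAbs + (N + 1) * L ^ 2 < L * d) ∨
    ((c.support.image c).card + 1) * (N + 1) < d) →
  ∃ (J : Finset (Fin r)) (a : Fin r → ℤ), ∑ i ∈ J, g i ≤ N ∧ c = ∑ j ∈ J, a j • cyc j

/-- HN/HOM: homogeneous reduced cycles: each point is on exactly one of the curves `i ∈ J`, which are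
the curves with more than `g i * N` points of `c`. -/
def StHOM : Prop := ∀ (n r : ℕ) (Ω : Type) [Field Ω] [IsAlgClosed Ω] [CharZero Ω]
  (κ : (Fin (n + 2) → Ω) → Ω) (m N d : ℕ) (c : (Fin (n + 2) → Ω) →₀ ℤ) (g : Fin r → ℕ)
  (on : Fin r → (Fin (n + 2) → Ω) → Prop) (cyc : Fin r → (Fin (n + 2) → Ω) →₀ ℤ)
  (A : Fin n → MvPolynomial (Fin 2) Ω), Conf r κ m N d c g on cyc A → c ≠ 0 →
  (∀ p, c p ≠ 0 → c p = 1) →
  (∀ p q, c p ≠ 0 → c q ≠ 0 →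
    {i | g i * N < cnt c on i ∧ on i p}.ncard = {i | g i * N < cnt c on i ∧ on i q}.ncard) →
  ∃ J : Finset (Fin r), (∀ i, i ∈ J ↔ g i * N < cnt c on i) ∧
    ∑ i ∈ J, g i ≤ N ∧ (∀ p, c p ≠ 0 → ∃! i, i ∈ J ∧ on i p) ∧
    (∀ i ∈ J, ∃ p, c p ≠ 0 ∧ on i p) ∧
    ∀ i ∈ J, ∀ p, cyc i p ≠ 0 → cyc i p = 1 ∧ c p ≠ 0

/-! ### Curves and the hypersurface -/

/-- An irreducible curve in `(n + 1)`-space over `Ω`, in good position. -/
structure Crv (n : ℕ) (Ω : Type) [Field Ω] where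
  E : Type
  [fld : Field E]
  [alg : Algebra Ω E]
  [ff : IsFF Ω E]
  X : Fin (n + 2) → E
  good : Good Ω X

attribute [instance] Crv.fld Crv.alg Crv.ff

/-- the degree of the curve -/
noncomputable def Crv.deg {n : ℕ} {Ω : Type} [Field Ω] (C : Crv n Ω) : ℕ :=
  Module.finrank Ω⟮C.X 1⟯ C.E

/-- the point `p` is on the curve -/
def Crv.On {n : ℕ} {Ω : Type} [Field Ω] (C : Crv n Ω) (p : Fin (n + 2) → Ω) : Prop :=
  ∃ v : Place Ω C.E, At v C.X p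

/-- HN/C1: the number of the points of intersection. -/
def StC1 : Prop := ∀ (n : ℕ) (Ω E : Type) [Field Ω] [Field E] [Algebra Ω E] [IsAlgClosed Ω]
  [CharZero Ω] [IsFF Ω E] (X : Fin (n + 2) → E), Good Ω X → ∀ (f : E) (d : ℕ), f ≠ 0 →
  (∀ v : Place Ω E, Ge v 0 (X 1) → Ge v 0 f) →
  (∀ v : Place Ω E, v.ord (X 1) < 0 → Ge v 0 (f / X 1 ^ d)) →
  (∀ p : Fin (n + 2) → Ω, 0 ≤ mu X f p) ∧
  (∀ p : Fin (n + 2) → Ω, mu X f p ≠ 0 ↔ ∃ v : Place Ω E, At v X p ∧ 0 < v.ord f) ∧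
  {p : Fin (n + 2) → Ω | mu X f p ≠ 0}.Finite ∧
  ∀ Q : Finset (Fin (n + 2) → Ω), ∑ p ∈ Q, mu X f p ≤ (Module.finrank Ω⟮X 1⟯ E * d : ℕ)

/-- HN/C2: the null trace of the intersection with a smooth hypersurface. -/
def StC2 : Prop := ∀ (n : ℕ) (Ω E : Type) [Field Ω] [Algebra ℂ Ω] [Field E] [Algebra Ω E]
  [IsAlgClosed Ω] [IsFF Ω E] (F : MvPolynomial (Fin (n + 2)) ℂ) (d m : ℕ), 1 ≤ n → Sm F →
  F.IsHomogeneous d → m + n + 2 = d → eval (Pi.single (Fin.last (n + 1)) 1) F ≠ 0 →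
  ∀ X : Fin (n + 2) → E, Good Ω X → cmp Ω F X ≠ 0 →
  ∀ (D : Fin n → Derivation ℂ Ω Ω) (c : (Fin (n + 2) → Ω) → Fin (n + 2) → Ω),
  (∀ p, p 0 = 1 → aeval p F = 0 → ∑ l, aeval p (pderiv l F) * c p l = 1) →
  ∀ P : MvPolynomial (Fin (n + 2)) Ω, P.IsHomogeneous m → ∀ Q : Finset (Fin (n + 2) → Ω),
  (∀ p, mu X (cmp Ω F X) p ≠ 0 → p ∈ Q) →
  ∑ p ∈ Q, (mu X (cmp Ω F X) p : Ω) * ((rows (c p) p D).det * eval p P) = 0

/-- HN/NM: there are no moving curves of low degree on a smooth hypersurface: all canonical forms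
vanish on the tangent vector of the curve and `n - 1` other vectors. -/
def StNM : Prop := ∀ (n : ℕ) (Ω E : Type) [Field Ω] [Algebra ℂ Ω] [Field E] [Algebra ℂ E]
  [Algebra Ω E] [IsScalarTower ℂ Ω E] [IsAlgClosed Ω] [IsFF Ω E]
  (F : MvPolynomial (Fin (n + 2)) ℂ) (d : ℕ), Sm F → F.IsHomogeneous d →
  ∀ X : Fin (n + 2) → E, Good Ω X → aeval X F = 0 → Module.finrank Ω⟮X 1⟯ E + n + 1 ≤ d →
  ∀ (i₀ : Fin n) (δ : Fin n → Derivation ℂ E E),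
    (∀ a : Ω, δ i₀ (algebraMap Ω E a) = 0) → δ i₀ (X 1) = 1 →
    (∀ i, i ≠ i₀ → δ i (X 1) = 0 ∧
      ∃ D : Derivation ℂ Ω Ω, ∀ a, δ i (algebraMap Ω E a) = algebraMap Ω E (D a)) →
    ∀ c : Fin (n + 2) → E, (rows c X δ).det = 0

/-- HN/NN: there are no moving curves of low degree on a smooth hypersurface. -/
def StN : Prop := ∀ (n : ℕ) (Ω E : Type) [Field Ω] [Algebra ℂ Ω] [Field E] [Algebra Ω E]
  [IsAlgClosed Ω] [IsFF Ω E] (F : MvPolynomial (Fin (n + 2)) ℂ) (d : ℕ), 1 ≤ n → Sm F →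
  F.IsHomogeneous d → ∀ X : Fin (n + 2) → E, Good Ω X → cmp Ω F X = 0 →
  Module.finrank Ω⟮X 1⟯ E + n + 1 ≤ d →
  ∀ (D : Fin n → Derivation ℂ Ω Ω) (v : Place Ω E) (p c : Fin (n + 2) → Ω), At v X p →
    (rows c p D).det = 0

/-- All algebraic relations between the coordinates `x` are multiples of the equation `F`. -/
def Relns {n : ℕ} {K : Type} [Field K] [Algebra ℂ K] (F : MvPolynomial (Fin (n + 2)) ℂ)
    (x : Fin (n + 2) → K) : Prop :=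
  ∀ P : MvPolynomial (Fin (n + 2)) ℂ, aeval x P = 0 → ∃ R : MvPolynomial (Fin (n + 2)) ℂ,
    ∀ (L : Type) [Field L] [Algebra ℂ L] (q : Fin (n + 2) → L), q 0 = 1 →
      aeval q P = aeval q F * aeval q R

/-- HN/IRR -/
def StIRR : Prop := ∀ (n : ℕ) (K : Type) [Field K] [Algebra ℂ K]
  (F : MvPolynomial (Fin (n + 2)) ℂ) (d : ℕ) (x : Fin (n + 2) → K), 1 ≤ n → Sm F →
  F.IsHomogeneous d → 2 ≤ d → x 0 = 1 → aeval x F = 0 →
  IntermediateField.adjoin ℂ (Set.range x) = ⊤ → Algebra.trdeg ℂ K = n → Relns F x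

/-- HN/ND -/
def StND : Prop := ∀ (n : ℕ) (K Ω : Type) [Field K] [Algebra ℂ K] [Field Ω] [Algebra ℂ Ω]
  (F : MvPolynomial (Fin (n + 2)) ℂ) (d : ℕ) (x : Fin (n + 2) → K), 1 ≤ n → Sm F →
  F.IsHomogeneous d → 2 ≤ d → x 0 = 1 → aeval x F = 0 →
  IntermediateField.adjoin ℂ (Set.range x) = ⊤ → Algebra.trdeg ℂ K = n → Relns F x →
  ∀ (D : Fin n → Derivation ℂ Ω Ω) (p c : Fin (n + 2) → Ω),
  p 0 = 1 → aeval p F = 0 → (rows c p D).det ≠ 0 → ∃ σ : K →ₐ[ℂ] Ω, ∀ j, σ (x j) = p j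

/-- HN/C3: the intersection of a curve with the hypersurface is rationally equivalent to zero, modulo
cycles on fixed proper closed subsets. -/
def StC3 : Prop := ∀ (n : ℕ) (K Ω E : Type) [Field K] [Algebra ℂ K] [Field Ω] [Algebra ℂ Ω]
  [Field E] [Algebra Ω E] [IsAlgClosed Ω] [IsFF Ω E] (F : MvPolynomial (Fin (n + 2)) ℂ) (d : ℕ)
  (x : Fin (n + 2) → K), 1 ≤ n → Sm F → F.IsHomogeneous d → 2 ≤ d →
  eval (Pi.single (Fin.last (n + 1)) 1) F ≠ 0 → x 0 = 1 → aeval x F = 0 →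
  IntermediateField.adjoin ℂ (Set.range x) = ⊤ → Algebra.trdeg ℂ K = n → Relns F x →
  ∀ X : Fin (n + 2) → E, Good Ω X → cmp Ω F X ≠ 0 → ∀ c : (K →ₐ[ℂ] Ω) →₀ ℤ,
    (∀ σ : K →ₐ[ℂ] Ω, c σ = mu X (cmp Ω F X) (fun j => σ (x j))) → c ∈ Rat K Ω

/-- HN/CUR: the components of the curve `A l (x, z l) = 0` and their projections. -/
def StCUR : Prop := ∀ (n : ℕ) (Ω : Type) [Field Ω] [IsAlgClosed Ω] [CharZero Ω]
  (A : Fin n → MvPolynomial (Fin 2) Ω), 1 ≤ n → (∀ l, MonicY (A l)) →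
  (∀ l, 1 ≤ (A l).totalDegree) →
  ∃ (r : ℕ) (C : Fin r → Crv n Ω),
  (∀ i l, aeval ![(C i).X 1, (C i).X l.succ.succ] (A l) = 0) ∧
  (∀ p : Fin (n + 2) → Ω, p 0 = 1 → (∀ l : Fin n, eval ![p 1, p l.succ.succ] (A l) = 0) →
    ∃ i, (C i).On p) ∧
  (∀ i j, i ≠ j → ∃ P : MvPolynomial (Fin (n + 2)) Ω, aeval (C i).X P = 0 ∧
    aeval (C j).X P ≠ 0) ∧
  ∀ Γ : Finset (Fin (n + 2) → Ω), (∀ p ∈ Γ, p 0 = 1) → ∃ bad : Finset Ω, ∀ t : Ω, t ∉ bad →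
    ∃ G : Fin r → MvPolynomial (Fin 2) Ω,
      (∀ i, Irreducible (G i) ∧ MonicY (G i) ∧ (G i).totalDegree = (C i).deg ∧
        aeval (pr (algebraMap Ω (C i).E t) (C i).X) (G i) = 0) ∧
      (∀ i j, i ≠ j → ¬ Associated (G i) (G j)) ∧
      ∀ i, ∀ p ∈ Γ, eval (pr t p) (G i) = 0 → (C i).On p

/-- HN/CONF: the configuration of points and curves given by a cycle with null trace. -/
def StCONF : Prop := ∀ (n : ℕ) (K Ω : Type) [Field K] [Algebra ℂ K] [Field Ω] [Algebra ℂ Ω]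
  [IsAlgClosed Ω] (F : MvPolynomial (Fin (n + 2)) ℂ) (d m N : ℕ), 1 ≤ n → Sm F →
  F.IsHomogeneous d → m + n + 2 = d → 7 * N + 4 ≤ m → (n + 1) * N < d →
  eval (Pi.single (Fin.last (n + 1)) 1) F ≠ 0 → ∀ x : Fin (n + 2) → K, x 0 = 1 → aeval x F = 0 →
  IntermediateField.adjoin ℂ (Set.range x) = ⊤ → Algebra.trdeg ℂ K = n →
  Algebra.trdeg ℂ Ω = n → Relns F x → ∀ f : (K →ₐ[ℂ] Ω) →₀ ℤ, NullTrace n f →
  f.support.card < (N + 1) * (m + 2 - N) → ∀ A : Fin n → MvPolynomial (Fin 2) Ω,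
  (∀ l, MonicY (A l) ∧ 1 ≤ (A l).totalDegree ∧ (A l).totalDegree ≤ N) →
  (∀ σ : K →ₐ[ℂ] Ω, f σ ≠ 0 → ∀ l : Fin n, eval ![pt x σ 1, pt x σ l.succ.succ] (A l) = 0) →
  ∃ (κ : (Fin (n + 2) → Ω) → Ω) (r : ℕ) (C : Fin r → Crv n Ω)
    (cyc : Fin r → (Fin (n + 2) → Ω) →₀ ℤ) (c : (Fin (n + 2) → Ω) →₀ ℤ),
    (∀ i l, aeval ![(C i).X 1, (C i).X l.succ.succ] (A l) = 0) ∧
    (∀ p : Fin (n + 2) → Ω, p 0 = 1 → (∀ l : Fin n, eval ![p 1, p l.succ.succ] (A l) = 0) →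
      ∃ i, (C i).On p) ∧
    (∀ i j, i ≠ j → ∃ P : MvPolynomial (Fin (n + 2)) Ω, aeval (C i).X P = 0 ∧
      aeval (C j).X P ≠ 0) ∧
    (∀ σ : K →ₐ[ℂ] Ω, c (pt x σ) = f σ) ∧ (∀ p, c p ≠ 0 → ∃ σ : K →ₐ[ℂ] Ω, p = pt x σ) ∧
    Conf r κ m N d c (fun i => (C i).deg) (fun i p => (C i).On p) cyc A ∧
    (∀ i p, cyc i p ≠ 0 → ∃ σ : K →ₐ[ℂ] Ω, p = pt x σ) ∧
    ∀ i, N < (C i).deg ∨ (cmp Ω F (C i).X = 0 ∧ cyc i = 0) ∨ (cmp Ω F (C i).X ≠ 0 ∧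
      ∀ σ : K →ₐ[ℂ] Ω, cyc i (pt x σ) = mu (C i).X (cmp Ω F (C i).X) (pt x σ))

/-! ### Images of hypersurfaces -/

/-- HN/NT: the general fibre of a map to a variety without canonical forms has null trace. -/
def StNT : Prop := ∀ (n : ℕ) (L K Ω : Type) [Field L] [Algebra ℂ L] [Field K] [Algebra ℂ K]
  [Algebra L K] [IsScalarTower ℂ L K] [FiniteDimensional L K] [Algebra.EssFiniteType ℂ L]
  [Algebra.EssFiniteType ℂ K] [Field Ω] [Algebra ℂ Ω] [Algebra L Ω] [IsScalarTower ℂ L Ω]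
  [IsAlgClosed Ω], Algebra.trdeg ℂ L = n →
  (∀ ω : (Fin n → Derivation ℂ L L) → L, Pool.Agent.W602.GT.IsPluri 1 ω →
    (∀ P : Place ℂ L, Pool.Agent.W602.GT.Divisorial n P → Pool.Agent.W602.GT.RegAt P ω) →
    ∀ D, ω D = 0) →
  ∀ f : (K →ₐ[ℂ] Ω) →₀ ℤ, (∀ σ : K →ₐ[ℂ] Ω,
    (f σ = 1 ∧ ∀ a : L, σ (algebraMap L K a) = algebraMap L Ω a) ∨
    (f σ = 0 ∧ ¬ ∀ a : L, σ (algebraMap L K a) = algebraMap L Ω a)) → NullTrace n f

/-- HN/DES: the equations of the cylinders can be chosen over `L`. -/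
def StDES : Prop := ∀ (L K Ω : Type) [Field L] [CharZero L] [Field K] [Algebra L K]
  [FiniteDimensional L K] [Field Ω] [Algebra L Ω] [IsAlgClosed Ω] (u w : K)
  (A : MvPolynomial (Fin 2) Ω), MonicY A → (∀ σ : K →ₐ[L] Ω, eval ![σ u, σ w] A = 0) →
  ∃ A₀ : MvPolynomial (Fin 2) L, MonicY A₀ ∧ A₀.totalDegree = A.totalDegree ∧
    aeval ![u, w] A₀ = 0

/-- HN/CONJ: the conjugates of a curve -/
def StCONJ : Prop := ∀ (n : ℕ) (Ω : Type) [Field Ω] [IsAlgClosed Ω] (C : Crv n Ω) (τ : Ω ≃+* Ω),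
  ∃ C' : Crv n Ω, C'.deg = C.deg ∧ (∀ p, C'.On (fun j => τ (p j)) ↔ C.On p) ∧
    ∀ P : MvPolynomial (Fin (n + 2)) Ω, aeval C'.X (map (τ : Ω →+* Ω) P) = 0 ↔ aeval C.X P = 0

/-- HN/INF: curves with infinitely many common points are equal -/
def StINF : Prop := ∀ (n : ℕ) (Ω : Type) [Field Ω] [IsAlgClosed Ω] [CharZero Ω] (C C' : Crv n Ω),
  {p : Fin (n + 2) → Ω | C.On p ∧ C'.On p}.Infinite →
  ∀ P : MvPolynomial (Fin (n + 2)) Ω, aeval C.X P = 0 → aeval C'.X P = 0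

/-- HN/ISO: the ideal determines the curve -/
def StISO : Prop := ∀ (n : ℕ) (Ω : Type) [Field Ω] [IsAlgClosed Ω] [CharZero Ω] (C C' : Crv n Ω),
  (∀ P : MvPolynomial (Fin (n + 2)) Ω, aeval C.X P = 0 ↔ aeval C'.X P = 0) →
  C.deg = C'.deg ∧ ∀ p, C.On p ↔ C'.On p

/-- the homomorphism `σ` is the identity on `L` -/
def Fix (L : Type) {K Ω : Type} [Field L] [Field K] [Algebra ℂ K] [Algebra L K]
    [Field Ω] [Algebra ℂ Ω] [Algebra L Ω] (σ : K →ₐ[ℂ] Ω) : Prop :=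
  ∀ a : L, σ (algebraMap L K a) = algebraMap L Ω a

/-- A component of the curve whose intersection with the hypersurface is the general fibre. -/
structure Pen (L : Type) {K Ω : Type} [Field L] [Algebra ℂ L] [Field K] [Algebra ℂ K] [Algebra L K]
    [Field Ω] [Algebra ℂ Ω] [Algebra L Ω] [IsScalarTower ℂ L Ω] {n : ℕ}
    (F : MvPolynomial (Fin (n + 2)) ℂ) (x : Fin (n + 2) → K) (C : Crv n Ω) : Prop where
  ne : cmp Ω F C.X ≠ 0
  start : ∃ σ : K →ₐ[ℂ] Ω, Fix L σ ∧ C.On (pt x σ)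
  mult : ∀ σ : K →ₐ[ℂ] Ω, mu C.X (cmp Ω F C.X) (pt x σ) ≠ 0 →
    mu C.X (cmp Ω F C.X) (pt x σ) = 1 ∧ Fix L σ
  conj : ∀ σ : K →ₐ[ℂ] Ω, Fix L σ → C.On (pt x σ) → ∀ τ : Ω ≃ₐ[L] Ω,
    C.On (fun j => τ (pt x σ j)) → ∀ P : MvPolynomial (Fin (n + 2)) Ω, aeval C.X P = 0 →
      aeval C.X (map ((τ : Ω ≃+* Ω) : Ω →+* Ω) P) = 0

/-- HN/PEN -/
def StPEN : Prop := ∀ (n : ℕ) (L K Ω : Type) [Field L] [Algebra ℂ L] [Field K] [Algebra ℂ K]
  [Algebra L K] [IsScalarTower ℂ L K] [FiniteDimensional L K] [Field Ω] [Algebra ℂ Ω] [Algebra L Ω]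
  [IsScalarTower ℂ L Ω] [IsAlgClosed Ω] [Algebra.IsAlgebraic L Ω]
  (F : MvPolynomial (Fin (n + 2)) ℂ) (d m N : ℕ), 1 ≤ n → Sm F → F.IsHomogeneous d →
  m + n + 2 = d → 7 * N + 4 ≤ m → (n + 1) * N < d →
  eval (Pi.single (Fin.last (n + 1)) 1) F ≠ 0 → ∀ x : Fin (n + 2) → K, x 0 = 1 → aeval x F = 0 →
  IntermediateField.adjoin ℂ (Set.range x) = ⊤ → Algebra.trdeg ℂ K = n → Relns F x →
  Module.finrank L K < (N + 1) * (m + 2 - N) →
  (∀ f : (K →ₐ[ℂ] Ω) →₀ ℤ, (∀ σ : K →ₐ[ℂ] Ω, (f σ = 1 ∧ Fix L σ) ∨ (f σ = 0 ∧ ¬ Fix L σ)) →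
    NullTrace n f) →
  ∀ A : Fin n → MvPolynomial (Fin 2) L,
  (∀ l, MonicY (A l) ∧ 1 ≤ (A l).totalDegree ∧ (A l).totalDegree ≤ N ∧
    aeval ![x 1, x l.succ.succ] (A l) = 0) → ∃ C : Crv n Ω, C.deg ≤ N ∧ Pen L F x C

/-- The valuation ring `O` of the function field of the family of curves is centred at the
hypersurface. -/
def Ctr {n : ℕ} {K Ω : Type} [Field K] [Algebra ℂ K] [Field Ω] [Algebra ℂ Ω]
    (x : Fin (n + 2) → K) (C : Crv n Ω) (O : ValuationSubring C.E) : Prop :=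
  ∀ P : MvPolynomial (Fin (n + 2)) ℂ, cmp Ω P C.X ∈ O ∧
    (aeval x P ≠ 0 ↔ cmp Ω P C.X ≠ 0 ∧ (cmp Ω P C.X)⁻¹ ∈ O)

/-- HN/VERT: the valuations over the hypersurface are trivial on the base. -/
def StVERT : Prop := ∀ (n : ℕ) (K Ω : Type) [Field K] [Algebra ℂ K] [Field Ω] [Algebra ℂ Ω]
  [IsAlgClosed Ω] (F : MvPolynomial (Fin (n + 2)) ℂ) (d N : ℕ), 1 ≤ n → Sm F →
  F.IsHomogeneous d → N + n + 1 ≤ d → ∀ x : Fin (n + 2) → K, x 0 = 1 → aeval x F = 0 →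
  IntermediateField.adjoin ℂ (Set.range x) = ⊤ → Algebra.trdeg ℂ K = n → Algebra.trdeg ℂ Ω = n →
  ∀ C : Crv n Ω, C.deg ≤ N → ∀ O : ValuationSubring C.E, Ctr x C O →
  ∀ a : Ω, algebraMap Ω C.E a ∈ O

/-- A specialisation of the curve with the function field `E` over `Ω` to a curve with the function
field `E'` over `Λ`. -/
structure Spz {Ω E Λ E' : Type} [Field Ω] [Field E] [Algebra Ω E] [Field Λ] [Field E']
    [Algebra Λ E'] (O : ValuationSubring E) (S : Subring E) (φ : S →+* E') : Prop where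
  le : ∀ a ∈ S, a ∈ O
  surj : Function.Surjective φ
  zero : ∀ a : S, φ a = 0 ↔ (a : E) = 0 ∨ (a : E)⁻¹ ∉ O
  max : ∀ a ∈ O, (a = 0 ∨ a⁻¹ ∉ O) → a ∈ S
  one : ∀ ω : Ω, algebraMap Ω E ω ∈ O →
    ∃ (h : algebraMap Ω E ω ∈ S) (b : Λ), φ ⟨_, h⟩ = algebraMap Λ E' b
  two : ∀ b : Λ, ∃ (ω : Ω) (h : algebraMap Ω E ω ∈ S), φ ⟨_, h⟩ = algebraMap Λ E' b

/-- HN/RDI: the degree does not increase under specialisation. -/
def StRDI : Prop := ∀ (Ω E Λ E' : Type) [Field Ω] [Field E] [Algebra Ω E] [Field Λ] [Field E']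
  [Algebra Λ E'] (O : ValuationSubring E) (S : Subring E) (φ : S →+* E'),
  Spz (Ω := Ω) (Λ := Λ) O S φ → ∀ u : S, Transcendental Λ (φ u) →
  FiniteDimensional Ω⟮(u : E)⟯ E → Module.finrank Λ⟮φ u⟯ E' ≤ Module.finrank Ω⟮(u : E)⟯ E

/-- HN/SPX: existence of the specialisation. -/
def StSPX : Prop := ∀ (n : ℕ) (K Ω : Type) [Field K] [Algebra ℂ K] [Field Ω] [Algebra ℂ Ω]
  [IsAlgClosed Ω] (x : Fin (n + 2) → K), x 0 = 1 →
  IntermediateField.adjoin ℂ (Set.range x) = ⊤ → Algebra.trdeg ℂ K = n → Algebra.trdeg ℂ Ω = n →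
  1 ≤ n → ∀ C : Crv n Ω, ∀ O : ValuationSubring C.E, Ctr x C O →
  (∃ a : Ω, algebraMap Ω C.E a ∉ O) →
  ∃ (Λ E' : Type) (_ : Field Λ) (_ : Field E') (_ : Algebra Λ E') (_ : Algebra ℂ Λ)
    (_ : Algebra ℂ E') (_ : IsScalarTower ℂ Λ E') (_ : IsAlgClosed Λ) (_ : IsFF Λ E')
    (S : Subring C.E) (φ : S →+* E') (hX : ∀ j, C.X j ∈ S),
    Spz (Ω := Ω) (Λ := Λ) O S φ ∧ Algebra.trdeg ℂ Λ + 1 = n ∧
    IntermediateField.adjoin Λ (Set.range fun j => φ ⟨C.X j, hX j⟩) = ⊤ ∧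
    ∀ P : MvPolynomial (Fin (n + 2)) ℂ, aeval (fun j => φ ⟨C.X j, hX j⟩) P = 0 ↔ aeval x P = 0

/-- a linear change of the coordinate `1` -/
def tw {n : ℕ} {E : Type} [Field E] (s : ℕ) (X : Fin (n + 2) → E) : Fin (n + 2) → E :=
  Function.update X 1 (∑ k : Fin (n + 1), (s : E) ^ (k : ℕ) * X k.succ)

/-- HN/GX: good coordinates. -/
def StGX : Prop := ∀ (n : ℕ) (Ω E : Type) [Field Ω] [Field E] [Algebra Ω E] [IsAlgClosed Ω]
  [CharZero Ω] [IsFF Ω E] (X : Fin (n + 2) → E), X 0 = 1 →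
  IntermediateField.adjoin Ω (Set.range X) = ⊤ → ∃ bad : Finset ℕ, ∀ s : ℕ, s ∉ bad →
    Good Ω (tw s X) ∧
      (Good Ω X → Module.finrank Ω⟮tw s X 1⟯ E = Module.finrank Ω⟮X 1⟯ E)

/-- HN/VC: a smooth hypersurface is not covered by curves of low degree. -/
def StVC : Prop := ∀ (n : ℕ) (Ω E : Type) [Field Ω] [Algebra ℂ Ω] [Field E] [Algebra ℂ E]
  [Algebra Ω E] [IsScalarTower ℂ Ω E] [IsAlgClosed Ω] [IsFF Ω E]
  (F : MvPolynomial (Fin (n + 2)) ℂ) (d e : ℕ), 1 ≤ n → Sm F → F.IsHomogeneous d →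
  ∀ X : Fin (n + 2) → E, X 0 = 1 → IntermediateField.adjoin Ω (Set.range X) = ⊤ →
  aeval X F = 0 → Algebra.trdeg ℂ Ω + 1 = n →
  Algebra.trdeg ℂ (IntermediateField.adjoin ℂ (Set.range X)) = n →
  (∃ bad : Finset ℕ, ∀ s : ℕ, s ∉ bad → Module.finrank Ω⟮tw s X 1⟯ E ≤ e) → ¬ e + n + 1 ≤ d

/-- HN/PLC: valuation rings are places. -/
def StPLC : Prop := ∀ (Ω E : Type) [Field Ω] [Field E] [Algebra Ω E] [IsAlgClosed Ω] [CharZero Ω]
  [IsFF Ω E] (O : ValuationSubring E), (∀ a, algebraMap Ω E a ∈ O) → O ≠ ⊤ →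
  ∃ v : Place Ω E, ∀ f, f ∈ O ↔ Ge v 0 f

/-- HN/PSI: automorphisms of the function field of a curve. -/
def StPSI : Prop := ∀ (n : ℕ) (Ω : Type) [Field Ω] [IsAlgClosed Ω] [CharZero Ω] (C : Crv n Ω)
  (τ : Ω ≃+* Ω),
  (∀ P : MvPolynomial (Fin (n + 2)) Ω, aeval C.X P = 0 ↔ aeval C.X (map (τ : Ω →+* Ω) P) = 0) →
  ∃ Ψ : C.E ≃+* C.E, (∀ a, Ψ (algebraMap Ω C.E a) = algebraMap Ω C.E (τ a)) ∧
    (∀ j, Ψ (C.X j) = C.X j) ∧
    ∀ v : Place Ω C.E, ∃ v' : Place Ω C.E, ∀ f, f ≠ 0 → v'.ord (Ψ f) = v.ord f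

/-- HN/HOR: the valuations over the hypersurface: uniqueness, ramification and residue field. -/
def StHOR : Prop := ∀ (n : ℕ) (L K Ω : Type) [Field L] [Algebra ℂ L] [Field K] [Algebra ℂ K]
  [Algebra L K] [IsScalarTower ℂ L K] [FiniteDimensional L K] [Field Ω] [Algebra ℂ Ω] [Algebra L Ω]
  [IsScalarTower ℂ L Ω] [IsAlgClosed Ω] [Algebra.IsAlgebraic L Ω]
  (F : MvPolynomial (Fin (n + 2)) ℂ) (d : ℕ), 1 ≤ n → Sm F → F.IsHomogeneous d → 2 ≤ d →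
  ∀ x : Fin (n + 2) → K, x 0 = 1 → aeval x F = 0 →
  IntermediateField.adjoin ℂ (Set.range x) = ⊤ → Algebra.trdeg ℂ K = n → Relns F x →
  ∀ C : Crv n Ω, Pen L F x C →
  (∀ O : ValuationSubring C.E, Ctr x C O → ∀ a : Ω, algebraMap Ω C.E a ∈ O) →
  (∀ O O' : ValuationSubring C.E, Ctr x C O → Ctr x C O' →
    ∀ e ∈ Subfield.closure (Set.range (fun a : L => algebraMap Ω C.E (algebraMap L Ω a)) ∪
      Set.range C.X), e ∈ O → e ∈ O') ∧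
  ∀ O : ValuationSubring C.E, Ctr x C O →
    ∀ e ∈ Subfield.closure (Set.range (fun a : L => algebraMap Ω C.E (algebraMap L Ω a)) ∪
      Set.range C.X), e ∈ O → ∃ P Q : MvPolynomial (Fin (n + 2)) ℂ, aeval x Q ≠ 0 ∧
        (e - cmp Ω P C.X / cmp Ω Q C.X) / cmp Ω F C.X ∈ O

/-- HN/FUND: an extension with a valuation which is totally inert and unramified is trivial. -/
def StFUND : Prop := ∀ (A R E : Type) [CommRing A] [IsDomain A] [IsDiscreteValuationRing A]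
  [Field R] [Algebra A R] [IsFractionRing A R] [Field E] [Algebra R E] [CharZero R]
  [FiniteDimensional R E] (t : A), Irreducible t →
  (∀ O O' : ValuationSubring E, (∀ a : A, algebraMap R E (algebraMap A R a) ∈ O) →
    (∀ a : A, algebraMap R E (algebraMap A R a) ∈ O') → O ≠ ⊤ → O' ≠ ⊤ → O = O') →
  (∀ O : ValuationSubring E, (∀ a : A, algebraMap R E (algebraMap A R a) ∈ O) → O ≠ ⊤ →
    ∀ e ∈ O, ∃ a : A, (e - algebraMap R E (algebraMap A R a)) /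
      algebraMap R E (algebraMap A R t) ∈ O) →
  ∀ e : E, ∃ r : R, algebraMap R E r = e

/-- HN/VEX: extension of valuation rings. -/
def StVEX : Prop := ∀ (E : Type) [Field E] (E₀ : Subfield E) (O₀ : ValuationSubring E₀),
  ∃ O : ValuationSubring E, ∀ a : E₀, a ∈ O₀ ↔ (a : E) ∈ O

/-- HN/DVR: the local ring of projective space at the hypersurface. -/
def StDVR : Prop := ∀ (n : ℕ) (K R : Type) [Field K] [Algebra ℂ K] [Field R] [Algebra ℂ R]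
  (F : MvPolynomial (Fin (n + 2)) ℂ) (x : Fin (n + 2) → K), x 0 = 1 → aeval x F = 0 →
  Relns F x → ∀ Y : Fin (n + 2) → R, Y 0 = 1 → aeval Y F ≠ 0 →
  (∀ P : MvPolynomial (Fin (n + 1)) ℂ, aeval (fun j : Fin (n + 1) => Y j.succ) P = 0 → P = 0) →
  IntermediateField.adjoin ℂ (Set.range Y) = ⊤ →
  ∃ (A : Subring R) (_ : IsDiscreteValuationRing A) (_ : IsFractionRing A R) (t : A),
    Irreducible t ∧ (t : R) = aeval Y F ∧ ∀ a : R, a ∈ A ↔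
      ∃ P Q : MvPolynomial (Fin (n + 2)) ℂ, aeval x Q ≠ 0 ∧ a = aeval Y P / aeval Y Q

/-- HN/RAT: the function field of the base consists of rational functions of the coordinates. -/
def StRAT : Prop := ∀ (n : ℕ) (L K Ω : Type) [Field L] [Algebra ℂ L] [Field K] [Algebra ℂ K]
  [Algebra L K] [IsScalarTower ℂ L K] [FiniteDimensional L K] [Algebra.EssFiniteType ℂ L]
  [Field Ω] [Algebra ℂ Ω] [Algebra L Ω] [IsScalarTower ℂ L Ω] [IsAlgClosed Ω]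
  [Algebra.IsAlgebraic L Ω] (F : MvPolynomial (Fin (n + 2)) ℂ) (d : ℕ), 1 ≤ n → Sm F →
  F.IsHomogeneous d → 2 ≤ d → ∀ x : Fin (n + 2) → K, x 0 = 1 → aeval x F = 0 →
  IntermediateField.adjoin ℂ (Set.range x) = ⊤ → Algebra.trdeg ℂ K = n → Relns F x →
  ∀ C : Crv n Ω, Pen L F x C →
  (∀ O O' : ValuationSubring C.E, Ctr x C O → Ctr x C O' →
    ∀ e ∈ Subfield.closure (Set.range (fun a : L => algebraMap Ω C.E (algebraMap L Ω a)) ∪
      Set.range C.X), e ∈ O → e ∈ O') →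
  (∀ O : ValuationSubring C.E, Ctr x C O →
    ∀ e ∈ Subfield.closure (Set.range (fun a : L => algebraMap Ω C.E (algebraMap L Ω a)) ∪
      Set.range C.X), e ∈ O → ∃ P Q : MvPolynomial (Fin (n + 2)) ℂ, aeval x Q ≠ 0 ∧
        (e - cmp Ω P C.X / cmp Ω Q C.X) / cmp Ω F C.X ∈ O) →
  (∀ P : MvPolynomial (Fin (n + 1)) ℂ, aeval (fun j : Fin (n + 1) => C.X j.succ)
    (map (algebraMap ℂ Ω) P) = 0 → P = 0) ∧
  ∀ a : L, algebraMap Ω C.E (algebraMap L Ω a) ∈ Subfield.closure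
    (Set.range (fun z : ℂ => algebraMap Ω C.E (algebraMap ℂ Ω z)) ∪ Set.range C.X)

/-- HN/UNI: subfields of transcendence degree `n` of the field of rational functions. -/
def StUNI : Prop := ∀ (n : ℕ) (L : Type) [Field L] [Algebra ℂ L] [Algebra.EssFiniteType ℂ L],
  1 ≤ n → Algebra.trdeg ℂ L = n →
  Nonempty (L →ₐ[ℂ] FractionRing (MvPolynomial (Fin (n + 1)) ℂ)) →
  Nonempty (L →ₐ[ℂ] FractionRing (MvPolynomial (Fin n) ℂ))

end Pool.Agent.N162.HN
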