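import Pool.Agent.N162.CV.Facts
import Pool.Agent.N162.CW.Facts
import Pool.Agent.N162.HN.Stm2
import Pool.Agent.N565.HN.B1
import Pool.Agent.N279.HN.SP
import Pool.Agent.N543.HN.Main
import Pool.Agent.N543.HN.Hom
import Pool.Agent.N80.HN.Conf
import Pool.Agent.N488.HN.C1
import Pool.Agent.N887.HN.C2
import Pool.Agent.N767.HN.NM
import Pool.Agent.N56.HN.NN
import Pool.Agent.N2.HN.Irr
import Pool.Agent.N935.HN.C3
import Pool.Agent.N570.HN.Cur
import Pool.Agent.N386.HN.NT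
import Pool.Agent.N954.HN.Des
import Pool.Agent.N681.HN.Tr
import Pool.Agent.N56.HN.RDI
import Pool.Agent.N946.HN.Spx
import Pool.Agent.N717.HN.GX
import Pool.Agent.N454.HN.PLC
import Pool.Agent.N263.HN.PSI
import Pool.Agent.N433.HN.Hor
import Pool.Agent.N56.HN.FUND
import Pool.Agent.N426.HN.DVR
import Pool.Agent.N693.HN.Rat
import Pool.Agent.N674.HN.Uni
import Pool.Agent.N163.HO.MainO
import Pool.Agent.N835.HO.Conf
import Pool.Agent.N490.HO.Penr
import Pool.Agent.N559.HO.Tau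

/-!
The parts of the project HN.
-/

set_option autoImplicit false

namespace Pool.Agent.N162.HN

theorem fSP : StSP := Pool.Agent.N279.HN.sp_
theorem fB1 : StB1 := Pool.Agent.N565.HN.b1_ CW.fA2
theorem fMAIN : Pool.Agent.N543.HN.StMAIN' := Pool.Agent.N543.HN.main_' CW.fA2 fSP CV.fA3 CV.fBEZ
theorem fHOM : Pool.Agent.N543.HN.StHOM' := Pool.Agent.N543.HN.hom_' CW.fA2 fSP CV.fA3 CV.fBEZ
theorem fC1 : StC1 := Pool.Agent.N488.HN.c1_
theorem fC2 : StC2 := Pool.Agent.N887.HN.c2_ CV.fDERa CV.fDERb CV.fDERc CV.fRES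
theorem fNM : StNM := Pool.Agent.N767.HN.nm_ CV.fDERa CV.fDERb CV.fRES
theorem fN : StN := Pool.Agent.N56.HN.nn_ fNM CV.fDERa CV.fDERc
theorem fIRR : StIRR := Pool.Agent.N2.HN.irr_
theorem fND : StND := Pool.Agent.N2.HN.nd_
theorem fC3 : StC3 := Pool.Agent.N935.HN.c3_ CV.fNF
theorem fCUR : StCUR := Pool.Agent.N570.HNC.cur_
theorem fCONF : StCONF := Pool.Agent.N80.HN.conf_ fC1 fC2 fN fND fCUR CV.fALG
theorem fNT : StNT := Pool.Agent.N386.HN.nt_
theorem fDES : StDES := Pool.Agent.N954.HN.des_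
theorem fCONJ : StCONJ := Pool.Agent.N681.HN.conj_
theorem fINF : StINF := Pool.Agent.N681.HN.inf_
theorem fISO : StISO := Pool.Agent.N681.HN.iso_
theorem fRDI : StRDI := Pool.Agent.N56.HN.rdi_
theorem fSPX : StSPX := Pool.Agent.N946.HN.spx_
theorem fGX : StGX := Pool.Agent.N717.HN.gx_
theorem fPLC : StPLC := Pool.Agent.N454.HN.plc_
theorem fVEX : StVEX := Pool.Agent.N454.HN.vex_
theorem fPSI : StPSI := Pool.Agent.N263.HN.PSI.psi_
theorem fHOR : StHOR := Pool.Agent.N433.HN.hor_ fPLC fPSI fC1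
theorem fFUND : StFUND := Pool.Agent.N56.HN.fund_
theorem fDVR : StDVR := Pool.Agent.N426.HN.dvr_
theorem fRAT : StRAT := Pool.Agent.N693.HN.rat_ fFUND fVEX fDVR
theorem fUNI : StUNI := Pool.Agent.N674.HNUNI.uni_
theorem fCONFR : StCONFR := Pool.Agent.N835.HO.confr_ fC1 fC2 fN fND fCUR CV.fALG
theorem fCONFO : StCONFO := Pool.Agent.N835.HO.confo_ fC1 fC2 fN fND fCUR CV.fALG
theorem fPENR : StPENR := Pool.Agent.N490.HO.penr_ fCONFR fHOM fCONJ fINF fISO
theorem fMAINO : StMAINO := Pool.Agent.N163.HO.maino_ CW.fA2 fSP CV.fA3 CV.fBEZ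
theorem fTAU : StTAU := Pool.Agent.N559.HO.tau_

end Pool.Agent.N162.HN
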