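import Pool.Agent.N162.HN.Stm
import Pool.Agent.N162.CV.Val
import Pool.Agent.N162.HS.Line

/-!
Linear changes of coordinates.
-/

set_option autoImplicit false

open FF Pool.Agent.W603.LV Pool.Agent.Y184.NT Pool.Agent.N162.BC MvPolynomial IntermediateField

namespace Pool.Agent.N162.HN

section act

variable {n : ℕ}

variable {R : Type} [Field R] [CharZero R]

theorem act_act {M M' : Matrix (Fin (n + 2)) (Fin (n + 2)) ℚ} (h : M' * M = 1) (v : Fin (n + 2) → R) :
    act M' (act M v) = v := by
  funext i
  unfold act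
  simp only [Finset.mul_sum]
  rw [Finset.sum_comm]
  have h1 : ∀ k, ∑ j, (M' i j : R) * ((M j k : R) * v k) = (if i = k then 1 else 0) * v k := by
    intro k
    have h2 := congrFun (congrFun h i) k
    rw [Matrix.mul_apply, Matrix.one_apply] at h2
    have h3 : ∑ j, (M' i j : R) * (M j k : R) = if i = k then 1 else 0 := by
      have h4 := congrArg (fun q : ℚ => (q : R)) h2
      push_cast at h4
      rw [h4]
      split_ifs <;> simp
    rw [← h3, Finset.sum_mul]
    refine Finset.sum_congr rfl fun j _ => ?_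
    ring
  simp only [h1, ite_mul, one_mul, zero_mul, Finset.sum_ite_eq, Finset.mem_univ, if_true]

theorem act_zero (M : Matrix (Fin (n + 2)) (Fin (n + 2)) ℚ) : act M (0 : Fin (n + 2) → R) = 0 := by
  funext i
  unfold act
  simp

end act

section der

variable {n : ℕ}

theorem der_aeval {R : Type} [CommRing R] [Algebra ℂ R] (D : Derivation ℂ R R) (g : Fin (n + 2) → R)
    (F : MvPolynomial (Fin (n + 2)) ℂ) : D (aeval g F) = ∑ i, aeval g (pderiv i F) * D (g i) := by
  classical
  induction F using MvPolynomial.induction_on with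
  | C a => simp
  | add p q hp hq =>
    simp only [map_add, hp, hq, add_mul, Finset.sum_add_distrib]
  | mul_X p i hp =>
    have h1 : ∀ j, aeval g (pderiv j (p * X i)) * D (g j) =
        g i * (aeval g (pderiv j p) * D (g j)) + if j = i then aeval g p * D (g j) else 0 := by
      intro j
      rw [pderiv_mul, map_add, map_mul, map_mul, aeval_X, pderiv_X]
      by_cases h : j = i
      · subst h
        rw [Pi.single_eq_same, map_one, if_pos rfl]
        ring
      · rw [Pi.single_eq_of_ne (Ne.symm h), map_zero, if_neg h]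
        ring
    simp only [h1, Finset.sum_add_distrib, Finset.sum_ite_eq', Finset.mem_univ, if_true]
    rw [map_mul, aeval_X, D.leibniz, hp, smul_eq_mul, smul_eq_mul, Finset.mul_sum, add_comm]

end der

section subst

variable {n : ℕ}

/-- the form in the new coordinates -/
noncomputable def sub (M : Matrix (Fin (n + 2)) (Fin (n + 2)) ℚ) (F : MvPolynomial (Fin (n + 2)) ℂ) :
    MvPolynomial (Fin (n + 2)) ℂ := aeval (fun i => ∑ j, C (M i j : ℂ) * X j) F

theorem sub_hom {F : MvPolynomial (Fin (n + 2)) ℂ} {d : ℕ} (hF : F.IsHomogeneous d)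
    (M : Matrix (Fin (n + 2)) (Fin (n + 2)) ℚ) : (sub M F).IsHomogeneous d := by
  have h1 := hF.aeval (n := 1) (fun i => ∑ j, C (M i j : ℂ) * X j) fun i =>
    IsHomogeneous.sum _ _ _ fun j _ => isHomogeneous_C_mul_X _ _
  rwa [one_mul] at h1

theorem aeval_sub {R : Type} [Field R] [Algebra ℂ R] (M : Matrix (Fin (n + 2)) (Fin (n + 2)) ℚ)
    (F : MvPolynomial (Fin (n + 2)) ℂ) (v : Fin (n + 2) → R) : aeval v (sub M F) = aeval (act M v) F := by
  unfold sub
  rw [comp_aeval_apply]
  congr 2
  funext i
  rw [map_sum]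
  refine Finset.sum_congr rfl fun j _ => ?_
  rw [map_mul, aeval_C, aeval_X, map_ratCast]

theorem eval_sub' (M : Matrix (Fin (n + 2)) (Fin (n + 2)) ℚ) (F : MvPolynomial (Fin (n + 2)) ℂ) (v : Fin (n + 2) → ℂ) :
    eval v (sub M F) = eval (act M v) F :=
  aeval_sub M F v

theorem sub_Sm {F : MvPolynomial (Fin (n + 2)) ℂ} (hs : Sm F) {M M' : Matrix (Fin (n + 2)) (Fin (n + 2)) ℚ}
    (h1 : M * M' = 1) (h2 : M' * M = 1) : Sm (sub M' F) := by
  intro z hz
  have h3 : act M' z ≠ 0 := by
    intro h
    apply hz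
    rw [← act_act h1 z, h, act_zero]
  obtain ⟨k, hk⟩ := hs _ h3
  by_contra hl
  push Not at hl
  apply hk
  have h4 : ∀ l, ∑ i, eval (act M' z) (pderiv i F) * (M' i l : ℂ) = 0 := by
    intro l
    have h5 := congrArg (eval z) (der_aeval (pderiv l) (fun i => ∑ j, C (M' i j : ℂ) * X j) F)
    have h6 := hl l
    unfold sub at h6
    rw [h6, map_sum] at h5
    rw [h5]
    refine Finset.sum_congr rfl fun i _ => ?_
    rw [map_mul, ← eval_sub']
    congr 1
    rw [map_sum, map_sum, Finset.sum_eq_single l]
    · rw [pderiv_C_mul, pderiv_X_self, mul_one, eval_C]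
    · intro j _ hj
      rw [pderiv_C_mul, pderiv_X_of_ne hj, mul_zero, map_zero]
    · intro h
      exact absurd (Finset.mem_univ _) h
  have h5 : eval (act M' z) (pderiv k F) =
      ∑ l, (∑ i, eval (act M' z) (pderiv i F) * (M' i l : ℂ)) * (M l k : ℂ) := by
    simp only [Finset.sum_mul]
    rw [Finset.sum_comm]
    have h6 : ∀ i, ∑ l, eval (act M' z) (pderiv i F) * (M' i l : ℂ) * (M l k : ℂ) =
        if i = k then eval (act M' z) (pderiv i F) else 0 := by
      intro i
      have h7 := congrFun (congrFun h2 i) k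
      rw [Matrix.mul_apply, Matrix.one_apply] at h7
      have h8 : ∑ l, (M' i l : ℂ) * (M l k : ℂ) = if i = k then 1 else 0 := by
        have h9 := congrArg (fun q : ℚ => (q : ℂ)) h7
        push_cast at h9
        rw [h9]
        split_ifs <;> simp
      simp only [mul_assoc]
      rw [← Finset.mul_sum, h8, mul_ite, mul_one, mul_zero]
    simp only [h6, Finset.sum_ite_eq', Finset.mem_univ, if_true]
  rw [h5]
  simp only [h4, zero_mul, Finset.sum_const_zero]

theorem adjoin_act {k R : Type} [Field k] [CharZero k] [Field R] [Algebra k R]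
    {M M' : Matrix (Fin (n + 2)) (Fin (n + 2)) ℚ} (h : M' * M = 1) {x : Fin (n + 2) → R} :
    IntermediateField.adjoin k (Set.range x) = ⊤ →
    IntermediateField.adjoin k (Set.range (act M x)) = ⊤ := by
  intro h1
  have hR : CharZero R := charZero_of_injective_algebraMap (algebraMap k R).injective
  rw [eq_top_iff, ← h1, IntermediateField.adjoin_le_iff]
  rintro _ ⟨j, rfl⟩
  have h2 : x j = ∑ l, (M' j l : R) * act M x l := (congrFun (act_act h x) j).symm
  rw [h2]
  refine sum_mem fun l _ => mul_mem ?_ (IntermediateField.subset_adjoin k _ ⟨l, rfl⟩)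
  have h3 : ((M' j l : ℚ) : R) = algebraMap k R (M' j l : k) := (map_ratCast _ _).symm
  rw [h3]
  exact IntermediateField.algebraMap_mem _ _

variable {K Ω : Type} [Field K] [Algebra ℂ K] [Field Ω] [Algebra ℂ Ω]

theorem pt_act [CharZero K] [CharZero Ω] (M : Matrix (Fin (n + 2)) (Fin (n + 2)) ℚ) (x : Fin (n + 2) → K)
    (σ : K →ₐ[ℂ] Ω) : pt (act M x) σ = act M (pt x σ) := by
  funext i
  unfold pt act
  rw [map_sum]
  refine Finset.sum_congr rfl fun j _ => ?_
  rw [map_mul, map_ratCast]

variable {E : Type} [Field E] [Algebra Ω E]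

theorem At.act [CharZero Ω] [CharZero E] (M : Matrix (Fin (n + 2)) (Fin (n + 2)) ℚ) {v : Place Ω E}
    {X : Fin (n + 2) → E} {p : Fin (n + 2) → Ω} (h : At v X p) : At v (HN.act M X) (HN.act M p) := by
  intro i
  have h1 : HN.act M X i - algebraMap Ω E (HN.act M p i) =
      ∑ j, algebraMap Ω E (M i j : Ω) * (X j - algebraMap Ω E (p j)) := by
    unfold HN.act
    rw [map_sum, ← Finset.sum_sub_distrib]
    refine Finset.sum_congr rfl fun j _ => ?_
    rw [map_mul, map_ratCast]
    ring
  rw [h1]
  refine Ge.sum _ _ fun j _ => ?_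
  have h2 := (Ge.const (P := v) (M i j : Ω)).mul (h j)
  rwa [zero_add] at h2

theorem cmp_act [CharZero Ω] [CharZero E] (M : Matrix (Fin (n + 2)) (Fin (n + 2)) ℚ) (X : Fin (n + 2) → E)
    (F : MvPolynomial (Fin (n + 2)) ℂ) : cmp Ω (sub M F) X = cmp Ω F (act M X) := by
  unfold cmp sub
  induction F using MvPolynomial.induction_on with
  | C a => simp
  | add p q hp hq => simp only [map_add, hp, hq]
  | mul_X p i hp =>
    simp only [map_mul, hp, aeval_X, map_X]
    congr 1
    rw [map_sum, map_sum]
    unfold act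
    refine Finset.sum_congr rfl fun j _ => ?_
    rw [map_mul, map_mul, map_C, aeval_C, map_X, aeval_X, map_ratCast, map_ratCast]

theorem mu_act [CharZero Ω] [CharZero E] {M M' : Matrix (Fin (n + 2)) (Fin (n + 2)) ℚ} (h1 : M * M' = 1)
    (h2 : M' * M = 1) (X : Fin (n + 2) → E) (f : E) (p : Fin (n + 2) → Ω) :
    mu (act M' X) f p = mu X f (act M p) := by
  unfold mu
  have h3 : {v : Place Ω E | At v (act M' X) p} = {v : Place Ω E | At v X (act M p)} := by
    ext v
    constructor
    · intro h
      have h3 := At.act M h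
      rwa [act_act h1] at h3
    · intro h
      have h3 := At.act M' h
      rwa [act_act h2] at h3
  rw [h3]

end subst

section infinity

variable {n : ℕ}

theorem restr_ev (G : MvPolynomial (Fin (n + 2)) ℂ) (a b : Fin (n + 2) → ℂ) (s : ℂ) :
    (restr G a b).eval s = eval (fun j => a j + s * b j) G :=
  restr_eval G a b s

theorem exists_zero (hn : 1 ≤ n) {G : MvPolynomial (Fin (n + 2)) ℂ} {e : ℕ} (hG : G.IsHomogeneous e) (he : 1 ≤ e) :
    ∃ o : Fin (n + 2) → ℂ, o ≠ 0 ∧ o 0 = 0 ∧ eval o G = 0 := by
  obtain ⟨u, hu⟩ : ∃ u : Fin (n + 2) → ℂ, u = Pi.single (Fin.last (n + 1)) 1 := ⟨_, rfl⟩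
  obtain ⟨w, hw⟩ : ∃ w : Fin (n + 2) → ℂ, w = Pi.single 1 1 := ⟨_, rfl⟩
  by_cases hd : (restr G u w).degree = 0 ∨ restr G u w = 0
  · obtain ⟨a, ha⟩ : ∃ a, restr G u w = Polynomial.C a := by
      rcases hd with h | h
      · exact ⟨_, Polynomial.eq_C_of_degree_eq_zero h⟩
      · exact ⟨0, by rw [h, map_zero]⟩
    have h1 : restr G w u = Polynomial.C a * Polynomial.X ^ e := by
      refine Polynomial.eq_of_infinite_eval_eq _ _ ?_
      refine Set.Infinite.mono (s := {(0 : ℂ)}ᶜ) ?_ (Set.finite_singleton (0 : ℂ)).infinite_compl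
      intro s hs
      have hs0 : s ≠ 0 := hs
      change Polynomial.eval s _ = Polynomial.eval s _
      have h2 := restr_ev G u w s⁻¹
      rw [ha, Polynomial.eval_C] at h2
      have h3 := CV.aeval_smul (E := ℂ) hG s (fun j => u j + s⁻¹ * w j)
      have h4 : (fun l => s * (u l + s⁻¹ * w l)) = fun j => w j + s * u j := by
        funext j
        rw [mul_add, mul_inv_cancel_left₀ hs0, add_comm]
      rw [h4] at h3
      rw [restr_ev]
      have h5 : eval (fun j => w j + s * u j) G = s ^ e * a := by
        rw [h2]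
        exact h3
      rw [h5, Polynomial.eval_mul, Polynomial.eval_C, Polynomial.eval_pow, Polynomial.eval_X,
        mul_comm]
    refine ⟨fun j => w j + 0 * u j, ?_, by simp [hw], ?_⟩
    · intro h
      have := congrFun h 1
      simp [hw] at this
    · rw [← restr_ev, h1]
      simp [show e ≠ 0 by omega]
  · push Not at hd
    obtain ⟨s, hs⟩ := IsAlgClosed.exists_root (restr G u w) hd.1
    refine ⟨fun j => u j + s * w j, ?_, by simp [hu, hw], ?_⟩
    · intro h
      have h2 := congrFun h (Fin.last (n + 1))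
      have h3 : (Fin.last (n + 1) : Fin (n + 2)) ≠ 1 := by
        intro h3
        have h4 := congrArg Fin.val h3
        simp only [Fin.val_last, Fin.val_one] at h4
        omega
      simp only [hu, hw, Pi.single_eq_same, Pi.single_eq_of_ne h3, mul_zero, add_zero,
        Pi.zero_apply] at h2
      exact one_ne_zero h2
    · rw [← restr_ev]
      exact hs

/-- a smooth surface does not contain the plane at infinity -/
theorem exists_o (hn : 1 ≤ n) {F : MvPolynomial (Fin (n + 2)) ℂ} {d : ℕ} (hs : Sm F) (hF : F.IsHomogeneous d)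
    (hd : 2 ≤ d) : ∃ o : Fin (n + 2) → ℂ, o 0 = 0 ∧ eval o F ≠ 0 := by
  by_contra h
  push Not at h
  have h1 : ∀ (o : Fin (n + 2) → ℂ) (l : Fin (n + 2)), o 0 = 0 → l ≠ 0 → eval o (pderiv l F) = 0 := by
    intro o l ho hl
    have h2 : restr F o (Pi.single l 1) = 0 := by
      refine Polynomial.funext fun s => ?_
      rw [restr_ev, Polynomial.eval_zero]
      apply h
      rw [ho, Pi.single_eq_of_ne (Ne.symm hl), mul_zero, add_zero]
    have h3 := der_aeval (Polynomial.derivative' (R := ℂ)) (lin o (Pi.single l 1)) F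
    have h4 : Polynomial.derivative' (R := ℂ) (aeval (lin o (Pi.single l 1)) F) = 0 := by
      have h5 : aeval (lin o (Pi.single l 1)) F = restr F o (Pi.single l 1) := rfl
      rw [h5, h2, map_zero]
    rw [h4] at h3
    have h5 := congrArg (Polynomial.eval 0) h3
    rw [Polynomial.eval_zero, Polynomial.eval_finsetSum, Finset.sum_eq_single l] at h5
    · have h6 : Polynomial.eval 0 (aeval (lin o (Pi.single l 1)) (pderiv l F)) =
          eval o (pderiv l F) := by
        have h7 := restr_ev (pderiv l F) o (Pi.single l 1) 0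
        simp only [zero_mul, add_zero] at h7
        exact h7
      rw [Polynomial.eval_mul, h6] at h5
      have h7 : Polynomial.eval 0 (Polynomial.derivative' (R := ℂ)
          (lin o (Pi.single l 1 : Fin (n + 2) → ℂ) l)) = 1 := by
        unfold lin
        simp [Polynomial.derivative']
      rw [h7, mul_one] at h5
      exact h5.symm
    · intro j _ hj
      rw [Polynomial.eval_mul]
      have h7 : Polynomial.eval 0 (Polynomial.derivative' (R := ℂ)
          (lin o (Pi.single l 1 : Fin (n + 2) → ℂ) j)) = 0 := by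
        unfold lin
        simp [Polynomial.derivative', Pi.single_eq_of_ne hj]
      rw [h7, mul_zero]
    · intro h
      exact absurd (Finset.mem_univ _) h
  obtain ⟨o, ho, ho0, hoG⟩ := exists_zero hn (hF.pderiv (i := 0)) (by omega)
  obtain ⟨l, hl⟩ := hs o ho
  by_cases h2 : l = 0
  · rw [h2] at hl
    exact hl hoG
  · exact hl (h1 o l ho0 h2)

end infinity

end Pool.Agent.N162.HN
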