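import Pool.Agent.N162.HN.Coord
import Pool.Agent.N162.HS.Main

/-!
The configuration of points and curves given by a cycle with null trace.
-/

set_option autoImplicit false

open FF Pool.Agent.W603.LV Pool.Agent.Y184.NT Pool.Agent.N162.BC MvPolynomial IntermediateField

namespace Pool.Agent.N162.HN

section

variable {n : ℕ} {K Ω : Type} [Field K] [Algebra ℂ K] [Field Ω] [Algebra ℂ Ω]

theorem pt_inj {x : Fin (n + 2) → K} (hgen : IntermediateField.adjoin ℂ (Set.range x) = ⊤) :
    Function.Injective (pt x : (K →ₐ[ℂ] Ω) → Fin (n + 2) → Ω) := fun _ _ h =>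
  HS.hom_ext (n := n) hgen fun j => congrFun h j

/-- the points as an embedding of sets -/
def emb (Ω : Type) [Field Ω] [Algebra ℂ Ω] {x : Fin (n + 2) → K}
    (hgen : IntermediateField.adjoin ℂ (Set.range x) = ⊤) : (K →ₐ[ℂ] Ω) ↪ (Fin (n + 2) → Ω) :=
  ⟨pt x, pt_inj hgen⟩

theorem pt_aeval (x : Fin (n + 2) → K) (σ : K →ₐ[ℂ] Ω) (G : MvPolynomial (Fin (n + 2)) ℂ) :
    aeval (pt x σ) G = σ (aeval x G) :=
  (MvPolynomial.comp_aeval_apply (φ := σ) x G).symm

theorem exists_idx : ∀ (m : ℕ) (e : Fin (n + 2) →₀ ℕ), e.degree = m →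
    ∃ g : Fin m → Fin (n + 2), ∀ v : Fin (n + 2) → Ω, ∏ k, v (g k) = ∏ i, v i ^ e i := by
  intro m
  induction m with
  | zero =>
    intro e he
    refine ⟨Fin.elim0, fun v => ?_⟩
    rw [(Finsupp.degree_eq_zero_iff e).1 he]
    simp
  | succ m ih =>
    intro e he
    obtain ⟨i, hi⟩ : ∃ i, e i ≠ 0 := by
      by_contra h
      push Not at h
      have h1 : e = 0 := Finsupp.ext h
      rw [h1, map_zero] at he
      omega
    have h1 : e = (e - Finsupp.single i 1) + Finsupp.single i 1 :=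
      (tsub_add_cancel_of_le (Finsupp.single_le_iff.2 (by omega))).symm
    obtain ⟨e', he'⟩ : ∃ e', e' = e - Finsupp.single i 1 := ⟨_, rfl⟩
    rw [← he'] at h1
    obtain ⟨g, hg⟩ := ih e' (by
      rw [h1, map_add, Finsupp.degree_single] at he
      omega)
    refine ⟨Fin.cons i g, fun v => ?_⟩
    rw [Fin.prod_univ_succ, Fin.cons_zero]
    simp only [Fin.cons_succ]
    rw [hg, h1]
    simp only [Finsupp.add_apply, pow_add]
    rw [Finset.prod_mul_distrib, mul_comm]
    congr 1
    rw [Finset.prod_eq_single i]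
    · simp
    · intro j _ hj
      rw [Finsupp.single_eq_of_ne hj, pow_zero]
    · intro h
      exact absurd (Finset.mem_univ _) h

/-- the relations between the points of a cycle with null trace -/
theorem rel_forms {F : MvPolynomial (Fin (n + 2)) ℂ} {d m : ℕ} (hs : Sm F) (hF : F.IsHomogeneous d)
    (hm : m + n + 2 = d) {x c : Fin (n + 2) → K} (hx : aeval x F = 0)
    (hc : ∑ l, aeval x (pderiv l F) * c l = 1) (hK : Algebra.trdeg ℂ K = (n : Cardinal))
    {f : (K →ₐ[ℂ] Ω) →₀ ℤ} (hf : NullTrace n f) (D : Fin n → Derivation ℂ Ω Ω)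
    (P : MvPolynomial (Fin (n + 2)) Ω) (hP : P.IsHomogeneous m) :
    ∑ σ ∈ f.support, ((f σ : Ω) * (rows (n := n) (fun j => σ (c j)) (pt x σ) D).det) *
      eval (pt x σ) P = 0 := by
  classical
  have h1 : ∀ v : Fin (n + 2) → Ω, eval v P = ∑ e ∈ P.support, P.coeff e * ∏ i, v i ^ e i := by
    intro v
    rw [eval_eq']
  simp only [h1, Finset.mul_sum]
  rw [Finset.sum_comm]
  refine Finset.sum_eq_zero fun e he => ?_
  obtain ⟨g, hg⟩ := exists_idx (Ω := Ω) m e (by
    have h2 := hP (mem_support_iff.1 he)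
    rw [← h2, Finsupp.degree_eq_weight_one]
    rfl)
  have h2 := HS.relations (n := n) (m := m) hs hF (by omega) hx hc hK hf D
    (fun k => LinearMap.proj (g k))
  have h3 : ∀ σ : K →ₐ[ℂ] Ω, ∏ k, (LinearMap.proj (R := Ω) (φ := fun _ : Fin (n + 2) => Ω) (g k))
      (fun j => σ (x j)) = ∏ i, pt x σ i ^ e i := by
    intro σ
    rw [← hg]
    rfl
  simp only [h3] at h2
  have h4 := congrArg (fun a => P.coeff e * a) h2
  simp only [mul_zero, Finset.mul_sum] at h4
  rw [← h4]
  refine Finset.sum_congr rfl fun σ _ => ?_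
  change _ * (P.coeff e * _) = P.coeff e * (_ * _)
  unfold pt
  ring

end

end Pool.Agent.N162.HN
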