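import Pool.Agent.N162.HN.Coord
import Pool.Agent.N944.CV.C1

/-!
The degree of a curve in space.
-/

set_option autoImplicit false

open FF Pool.Agent.W603.LV Pool.Agent.Y184.NT Pool.Agent.N162.BC MvPolynomial IntermediateField

namespace Pool.Agent.N162.HN

section

variable {n : ℕ} {Ω E : Type} [Field Ω] [Field E] [Algebra Ω E]

/-- The degree of the irreducible curve in projective space with the function field `E` and the
homogeneous coordinates `X`, where `X 0 = 1`: the number of the points at infinity, counted with
multiplicities. -/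
noncomputable def degree (Ω : Type) {E : Type} [Field Ω] [Field E] [Algebra Ω E] (X : Fin (n + 2) → E) :
    ℤ :=
  ∑ᶠ v : Place Ω E, Finset.univ.sup' Finset.univ_nonempty fun j => -(v.ord (X j))

theorem ge_sup {X : Fin (n + 2) → E} (v : Place Ω E) (j : Fin (n + 2)) :
    Ge v (-(Finset.univ.sup' Finset.univ_nonempty fun j => -(v.ord (X j)))) (X j) := by
  right
  have h1 := Finset.le_sup' (fun j => -(v.ord (X j))) (Finset.mem_univ j)
  omega

theorem sup_act_le [CharZero Ω] [CharZero E] (M : Matrix (Fin (n + 2)) (Fin (n + 2)) ℚ) {X : Fin (n + 2) → E}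
    (h0 : X 0 = 1) (v : Place Ω E) :
    (Finset.univ.sup' Finset.univ_nonempty fun j => -(v.ord (act M X j))) ≤
      Finset.univ.sup' Finset.univ_nonempty fun j => -(v.ord (X j)) := by
  refine Finset.sup'_le _ _ fun j _ => ?_
  have h1 : Ge v (-(Finset.univ.sup' Finset.univ_nonempty fun j => -(v.ord (X j))))
      (act M X j) := by
    unfold act
    refine Ge.sum _ _ fun k _ => ?_
    have h2 := (Ge.const (P := v) (M j k : Ω)).mul (ge_sup v k (X := X))
    rw [zero_add, map_ratCast] at h2
    exact h2
  rcases h1 with h1 | h1
  · rw [h1, v.ord_zero]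
    have h2 := Finset.le_sup' (fun j => -(v.ord (X j))) (Finset.mem_univ (0 : Fin (n + 2)))
    simp only [h0, v.ord_one] at h2
    exact h2
  · omega

theorem degree_act [CharZero Ω] [CharZero E] {M M' : Matrix (Fin (n + 2)) (Fin (n + 2)) ℚ} (h : M * M' = 1)
    {X : Fin (n + 2) → E} (h0 : X 0 = 1) (h1 : act M' X 0 = 1) : degree Ω (act M' X) = degree Ω X := by
  unfold degree
  congr 1
  funext v
  apply le_antisymm
  · exact sup_act_le M' h0 v
  · have h2 := sup_act_le M h1 v
    rwa [act_act h] at h2

theorem degree_good [CharZero Ω] [IsAlgClosed Ω] [IsFF Ω E] {X : Fin (n + 2) → E} (hX : Good Ω X) :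
    degree Ω X = Module.finrank Ω⟮X 1⟯ E := by
  rw [← ddeg_polar (k := Ω) hX.tr]
  have h1 : ∀ v : Place Ω E, (Finset.univ.sup' Finset.univ_nonempty fun j => -(v.ord (X j))) =
      polar (k := Ω) (X 1) v := by
    intro v
    rw [polar_apply]
    apply le_antisymm
    · refine Finset.sup'_le _ _ fun j _ => ?_
      by_cases hv : v.ord (X 1) < 0
      · rcases hX.inf v hv j with h | h
        · have hX1 : X 1 ≠ 0 := by
            intro h2
            rw [h2, v.ord_zero] at hv
            omega
          have h2 : X j = 0 := by
            rcases div_eq_zero_iff.1 h with h | h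
            · exact h
            · exact absurd h hX1
          rw [h2, v.ord_zero]
          simp
        · by_cases hj : X j = 0
          · rw [hj, v.ord_zero]
            simp
          · have hX1 : X 1 ≠ 0 := by
              intro h2
              rw [h2, v.ord_zero] at hv
              omega
            rw [v.ord_div hj hX1] at h
            exact le_max_of_le_left (by omega)
      · rcases hX.fin v (Or.inr (by omega)) j with h | h
        · rw [h, v.ord_zero]
          simp
        · exact le_max_of_le_right (by omega)
    · refine max_le ?_ ?_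
      · exact Finset.le_sup' (fun j => -(v.ord (X j))) (Finset.mem_univ (1 : Fin (n + 2)))
      · have h2 := Finset.le_sup' (fun j => -(v.ord (X j))) (Finset.mem_univ (0 : Fin (n + 2)))
        simp only [hX.one, v.ord_one] at h2
        exact h2
  unfold degree
  simp only [h1]
  unfold ddeg Finsupp.sum
  rw [finsum_eq_sum_of_support_subset (s := (polar (k := Ω) (X 1)).support) _ (fun v hv => by
    rw [Finset.mem_coe, Finsupp.mem_support_iff]
    exact hv)]
  refine Finset.sum_congr rfl fun v _ => ?_
  change polar (k := Ω) (X 1) v = polar (k := Ω) (X 1) v * (v.deg : ℤ)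
  rw [Pool.Agent.N944.CV.deg_one, Nat.cast_one, mul_one]

end

end Pool.Agent.N162.HN
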