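import Pool.Agent.N162.HN.Pts
import Pool.Agent.N162.HN.Deg
import Pool.Agent.N162.BC.Forms
import Pool.Agent.TH466.QG.Low
import Pool.Agent.Y184.NT.Main2
import Pool.Agent.N162.HN.Stm2

/-!
Varieties of geometric genus zero which are dominated by a smooth hypersurface with small degree are
unirational.
-/

set_option autoImplicit false

open FF Pool.Agent.W603.LV Pool.Agent.Y184.NT Pool.Agent.N162.BC MvPolynomial IntermediateField

namespace Pool.Agent.N162.HN

section

variable {n : ℕ} {K Ω : Type} [Field K] [Algebra ℂ K] [Field Ω] [Algebra ℂ Ω]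

/-- the fibre as a cycle -/
theorem exists_fibre (L : Type) [Field L] [Algebra ℂ L] [Algebra L K] [IsScalarTower ℂ L K]
    [FiniteDimensional L K] [Algebra L Ω] [IsScalarTower ℂ L Ω] [IsAlgClosed Ω] :
    ∃ f : (K →ₐ[ℂ] Ω) →₀ ℤ, (∀ σ : K →ₐ[ℂ] Ω, (f σ = 1 ∧ Fix L σ) ∨ (f σ = 0 ∧ ¬ Fix L σ)) ∧
      f.support.card = Module.finrank L K := by
  classical
  have hcL : CharZero L := charZero_of_injective_algebraMap (algebraMap ℂ L).injective
  let e : (K →ₐ[L] Ω) ↪ (K →ₐ[ℂ] Ω) := ⟨fun σ => σ.restrictScalars ℂ, fun σ τ h => by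
    apply AlgHom.ext
    intro a
    exact DFunLike.congr_fun h a⟩
  obtain ⟨S, hS⟩ : ∃ S : Finset (K →ₐ[ℂ] Ω), S = Finset.univ.map e := ⟨_, rfl⟩
  have hmem : ∀ σ : K →ₐ[ℂ] Ω, σ ∈ S ↔ Fix L σ := by
    intro σ
    rw [hS, Finset.mem_map]
    constructor
    · rintro ⟨τ, -, rfl⟩
      intro a
      exact τ.commutes a
    · intro h
      refine ⟨{ σ.toRingHom with commutes' := h }, Finset.mem_univ _, ?_⟩
      apply AlgHom.ext
      intro a
      rfl
  refine ⟨Finsupp.indicator S fun _ _ => 1, fun σ => ?_, ?_⟩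
  · by_cases h : σ ∈ S
    · exact Or.inl ⟨Finsupp.indicator_of_mem h _, (hmem σ).1 h⟩
    · exact Or.inr ⟨Finsupp.indicator_of_notMem h _, fun h' => h ((hmem σ).2 h')⟩
  · have h1 : (Finsupp.indicator S fun _ _ => (1 : ℤ)).support = S := by
      ext σ
      rw [Finsupp.mem_support_iff]
      by_cases h : σ ∈ S
      · rw [Finsupp.indicator_of_mem h]
        exact ⟨fun _ => h, fun _ => one_ne_zero⟩
      · rw [Finsupp.indicator_of_notMem h]
        exact ⟨fun h' => absurd rfl h', fun h' => absurd h' h⟩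
    rw [h1, hS, Finset.card_map, Finset.card_univ, AlgHom.card]

end

/-- a subfield of a field of rational functions -/
theorem hom_of_mem {n : ℕ} {L Ω : Type} [Field L] [Algebra ℂ L] [Field Ω] [Algebra ℂ Ω]
    [Algebra L Ω] [IsScalarTower ℂ L Ω] (C : Crv n Ω)
    (hind : ∀ P : MvPolynomial (Fin (n + 1)) ℂ, aeval (fun j : Fin (n + 1) => C.X j.succ)
      (map (algebraMap ℂ Ω) P) = 0 → P = 0)
    (hmem : ∀ a : L, algebraMap Ω C.E (algebraMap L Ω a) ∈ Subfield.closure
      (Set.range (fun z : ℂ => algebraMap Ω C.E (algebraMap ℂ Ω z)) ∪ Set.range C.X)) :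
    Nonempty (L →ₐ[ℂ] FractionRing (MvPolynomial (Fin (n + 1)) ℂ)) := by
  letI : Algebra ℂ C.E := ((algebraMap Ω C.E).comp (algebraMap ℂ Ω)).toAlgebra
  haveI : IsScalarTower ℂ Ω C.E := IsScalarTower.of_algebraMap_eq fun _ => rfl
  obtain ⟨Y, hY⟩ : ∃ Y : Fin (n + 1) → C.E, Y = fun j => C.X j.succ := ⟨_, rfl⟩
  have h1 : AlgebraicIndependent ℂ Y := by
    rw [algebraicIndependent_iff]
    intro P hP
    apply hind P
    rw [aeval_map_algebraMap, ← hY]
    exact hP
  let φ : L →ₐ[ℂ] C.E := { toRingHom := (algebraMap Ω C.E).comp (algebraMap L Ω)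
                           commutes' := fun z => by
                             change algebraMap Ω C.E (algebraMap L Ω (algebraMap ℂ L z)) = _
                             rw [← IsScalarTower.algebraMap_apply ℂ L Ω]
                             rfl }
  have h2 : ∀ a : L, φ a ∈ IntermediateField.adjoin ℂ (Set.range Y) := by
    intro a
    have h3 : Subfield.closure (Set.range (fun z : ℂ => algebraMap Ω C.E (algebraMap ℂ Ω z)) ∪
        Set.range C.X) ≤ (IntermediateField.adjoin ℂ (Set.range Y)).toSubfield := by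
      rw [Subfield.closure_le]
      rintro _ (⟨z, rfl⟩ | ⟨j, rfl⟩)
      · exact IntermediateField.algebraMap_mem _ z
      · refine Fin.cases ?_ (fun j => ?_) j
        · rw [C.good.one]
          exact one_mem _
        · exact IntermediateField.subset_adjoin ℂ _ ⟨j, by rw [hY]⟩
    exact h3 (hmem a)
  let ψ : L →ₐ[ℂ] IntermediateField.adjoin ℂ (Set.range Y) := φ.codRestrict
    (IntermediateField.adjoin ℂ (Set.range Y)).toSubalgebra h2
  exact ⟨(h1.aevalEquivField.symm : _ →ₐ[ℂ] _).comp ψ⟩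

/-- the fibre as a cycle with coefficients in `Ω` -/
theorem exists_fibreO {K Ω : Type} [Field K] [Algebra ℂ K] [Field Ω] [Algebra ℂ Ω]
    (L : Type) [Field L] [Algebra ℂ L] [Algebra L K] [IsScalarTower ℂ L K]
    [FiniteDimensional L K] [Algebra L Ω] [IsScalarTower ℂ L Ω] [IsAlgClosed Ω] :
    ∃ f : (K →ₐ[ℂ] Ω) →₀ Ω, (∀ σ : K →ₐ[ℂ] Ω, (f σ = 1 ∧ Fix L σ) ∨ (f σ = 0 ∧ ¬ Fix L σ)) ∧
      f.support.card = Module.finrank L K := by
  classical
  have hcL : CharZero L := charZero_of_injective_algebraMap (algebraMap ℂ L).injective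
  obtain ⟨f, hf, hfc⟩ := exists_fibre (K := K) (Ω := Ω) L
  refine ⟨f.mapRange (Int.cast : ℤ → Ω) Int.cast_zero, fun σ => ?_, ?_⟩
  · rw [Finsupp.mapRange_apply]
    rcases hf σ with h | h
    · exact Or.inl ⟨by rw [h.1, Int.cast_one], h.2⟩
    · exact Or.inr ⟨by rw [h.1, Int.cast_zero], h.2⟩
  · rw [← hfc]
    congr 1
    ext σ
    have hcΩ : CharZero Ω := charZero_of_injective_algebraMap (algebraMap ℂ Ω).injective
    rw [Finsupp.mem_support_iff, Finsupp.mem_support_iff, Finsupp.mapRange_apply, Ne,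
      Int.cast_eq_zero]

/-- the residue relations of a cycle with null trace -/
theorem relF_of_null {n : ℕ} {K Ω : Type} [Field K] [Algebra ℂ K] [Field Ω] [Algebra ℂ Ω]
    {F : MvPolynomial (Fin (n + 2)) ℂ} {d m : ℕ} (hs : Sm F) (hF : F.IsHomogeneous d)
    (hm : m + n + 2 = d) {x : Fin (n + 2) → K} (hx : aeval x F = 0)
    (hK : Algebra.trdeg ℂ K = (n : Cardinal)) {f : (K →ₐ[ℂ] Ω) →₀ ℤ} (hf : NullTrace n f) :
    RelF F x m (f.mapRange (Int.cast : ℤ → Ω) Int.cast_zero) := by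
  classical
  intro c hc D P hP
  have hcΩ : CharZero Ω := charZero_of_injective_algebraMap (algebraMap ℂ Ω).injective
  have h1 := rel_forms hs hF hm hx hc hK hf D P hP
  have h2 : (f.mapRange (Int.cast : ℤ → Ω) Int.cast_zero).support = f.support := by
    ext σ
    rw [Finsupp.mem_support_iff, Finsupp.mem_support_iff, Finsupp.mapRange_apply, Ne,
      Int.cast_eq_zero]
  rw [h2, ← h1]
  refine Finset.sum_congr rfl fun σ _ => ?_
  rw [Finsupp.mapRange_apply, mul_assoc]

/-- A variety dominated by a smooth hypersurface with small degree is unirational if the generic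
fibre satisfies the residue relations. -/
theorem unirational_rel (hB1 : StB1) (hIRR : StIRR) (hDES : StDES) (hPENR : StPENR)
    (hRELM : StRELM) (hVERT : StVERT) (hHOR : StHOR) (hRAT : StRAT) (hUNI : StUNI)
    {n m N d : ℕ} (hn : 1 ≤ n) (hm : m + n + 2 = d) (h7 : 7 * N + 4 ≤ m) (hN : (n + 1) * N < d)
    (h2N : 2 * (N + n - 1) < d)
    {F : MvPolynomial (Fin (n + 2)) ℂ} (hs : Sm F) (hF : F.IsHomogeneous d)
    {K : Type} [Field K] [Algebra ℂ K] {x : Fin (n + 2) → K} (hx0 : x 0 = 1) (hx : aeval x F = 0)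
    (hgen : IntermediateField.adjoin ℂ (Set.range x) = ⊤) (hK : Algebra.trdeg ℂ K = n)
    (L Ω : Type) [Field L] [Algebra ℂ L] [Algebra L K] [IsScalarTower ℂ L K] [FiniteDimensional L K]
    [Field Ω] [Algebra ℂ Ω] [Algebra L Ω] [IsScalarTower ℂ L Ω] [IsAlgClosed Ω]
    [Algebra.IsAlgebraic L Ω]
    (hr : Module.finrank L K < (N + 1) * (m + 2 - N))
    (hrel : ∀ f : (K →ₐ[ℂ] Ω) →₀ Ω, (∀ σ : K →ₐ[ℂ] Ω, (f σ = 1 ∧ Fix L σ) ∨
      (f σ = 0 ∧ ¬ Fix L σ)) → RelF F x m f) :
    Nonempty (L →ₐ[ℂ] FractionRing (MvPolynomial (Fin n) ℂ)) := by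
  classical
  have hcL : CharZero L := charZero_of_injective_algebraMap (algebraMap ℂ L).injective
  have hcK : CharZero K := charZero_of_injective_algebraMap (algebraMap ℂ K).injective
  have hcΩ : CharZero Ω := charZero_of_injective_algebraMap (algebraMap ℂ Ω).injective
  have hd2 : 2 ≤ d := by omega
  have hessK : Algebra.EssFiniteType ℂ K := by
    rw [← IntermediateField.fg_top_iff]
    exact ⟨Finset.univ.image x, by
      rw [Finset.coe_image, Finset.coe_univ, Set.image_univ, hgen]⟩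
  have hessL : Algebra.EssFiniteType ℂ L := Pool.Agent.TH466.QG.ess_below (K := K)
  have hL : Algebra.trdeg ℂ L = n := Pool.Agent.Y184.NT.trdeg_below (K := K) hK
  have hΩ : Algebra.trdeg ℂ Ω = n := by
    have h1 := trdeg_add_eq ℂ L (A := Ω)
    have h2 : Algebra.trdeg L Ω = 0 := by
      rw [trdeg_eq_zero_iff]
      infer_instance
    rw [h2, add_zero, hL] at h1
    exact h1.symm
  obtain ⟨f, hf, hfc⟩ := exists_fibreO (K := K) (Ω := Ω) L
  obtain ⟨c, hc⟩ := Pool.Agent.Y184.NT.exists_c (n := n) hs (x := x) (j0 := 0)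
    (by rw [hx0]; exact one_ne_zero)
  obtain ⟨y, hy⟩ := exists_tb (k := ℂ) (L := Ω) hΩ
  choose D hD using fun i : Fin n => Pool.Agent.W602.GT.exists_der y hy
    fun j => if i = j then (1 : Ω) else 0
  obtain ⟨M, M', A, hMM, hMM', hM0, hA, hcol⟩ :=
    hB1 n Ω (K →ₐ[ℂ] Ω) f.support (fun σ => pt x σ)
      (fun σ => f σ * (rows (n := n) (fun j => σ (c j)) (pt x σ) D).det) m N F hn
      (Finset.card_pos.1 (by rw [hfc]; exact Module.finrank_pos))
      (fun σ _ => by
        unfold pt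
        rw [hx0, map_one])
      ((pt_inj hgen).injOn)
      (fun σ hσ => mul_ne_zero (Finsupp.mem_support_iff.1 hσ)
        (HS.rows_ne (n := n) hF hd2 hx hc hx0 hgen hK hΩ hy hD σ))
      (fun P hP => by
        have h1 := hrel f hf c hc D P hP
        rw [← h1]
        refine Finset.sum_congr rfl fun σ _ => ?_
        rw [mul_assoc]) h7 (by rw [hfc]; exact hr)
      (exists_o hn hs hF hd2)
  -- the new coordinates
  have hs' : Sm (sub M' F) := sub_Sm hs hMM hMM'
  have hF' : (sub M' F).IsHomogeneous d := sub_hom hF M'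
  have hF3 : eval (Pi.single (Fin.last (n + 1)) 1) (sub M' F) ≠ 0 := by
    rw [eval_sub']
    have h1 : act M' (Pi.single (Fin.last (n + 1)) 1 : Fin (n + 2) → ℂ) =
        fun j => (M' j (Fin.last (n + 1)) : ℂ) := by
      funext j
      unfold act
      rw [Finset.sum_eq_single (Fin.last (n + 1))]
      · rw [Pi.single_eq_same, mul_one]
      · intro k _ hk
        rw [Pi.single_eq_of_ne hk, mul_zero]
      · intro h
        exact absurd (Finset.mem_univ _) h
    rw [h1]
    exact hcol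
  have hx0' : act M x 0 = 1 := by
    unfold act
    rw [Finset.sum_eq_single 0]
    · rw [hM0, if_pos rfl, hx0]
      simp
    · intro j _ hj
      rw [hM0, if_neg hj, Rat.cast_zero, zero_mul]
    · intro h
      exact absurd (Finset.mem_univ _) h
  have hx' : aeval (act M x) (sub M' F) = 0 := by
    rw [aeval_sub, act_act hMM', hx]
  have hgen' : IntermediateField.adjoin ℂ (Set.range (act M x)) = ⊤ := adjoin_act hMM' hgen
  have hR : Relns (sub M' F) (act M x) :=
    hIRR n K (sub M' F) d (act M x) hn hs' hF' hd2 hx0' hx' hgen' hK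
  have hdes : ∀ l : Fin n, ∃ A₀ : MvPolynomial (Fin 2) L, Pool.Agent.N162.CV.MonicY A₀ ∧
      A₀.totalDegree = (A l).totalDegree ∧ aeval ![act M x 1, act M x l.succ.succ] A₀ = 0 := by
    intro l
    refine hDES L K Ω (act M x 1) (act M x l.succ.succ) (A l) (hA l).1 fun σ => ?_
    have h1 : (σ.restrictScalars ℂ : K →ₐ[ℂ] Ω) ∈ f.support := by
      rw [Finsupp.mem_support_iff]
      rcases hf (σ.restrictScalars ℂ) with h | h
      · rw [h.1]
        exact one_ne_zero
      · exact absurd (fun a => σ.commutes a) h.2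
    have h2 := (hA l).2.2.2 _ h1
    rw [← pt_act] at h2
    exact h2
  choose A₀ hA1 hA2 hA3 using hdes
  obtain ⟨C, hCd, hPen⟩ := hPENR n L K Ω (sub M' F) d m N hn hs' hF' hm h7 hN h2N hF3 (act M x) hx0'
    hx' hgen' hK hR hr (fun f hf => hRELM n K Ω F x m M M' hMM hMM' f (hrel f hf))
    A₀ fun l => ⟨hA1 l, by rw [hA2]; exact (hA l).2.1,
      by rw [hA2]; exact (hA l).2.2.1, hA3 l⟩
  have hv := hVERT n K Ω (sub M' F) d N hn hs' hF' (by omega) (act M x) hx0' hx' hgen' hK hΩ C hCd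
  obtain ⟨h1, h2⟩ := hHOR n L K Ω (sub M' F) d hn hs' hF' hd2 (act M x) hx0' hx' hgen' hK hR C hPen
    hv
  obtain ⟨h3, h4⟩ := hRAT n L K Ω (sub M' F) d hn hs' hF' hd2 (act M x) hx0' hx' hgen' hK hR C hPen
    h1 h2
  exact hUNI n L hn hL (hom_of_mem C h3 h4)

/-- Varieties of geometric genus zero which are dominated by a smooth hypersurface with small degree
are unirational. -/
theorem unirational (hB1 : StB1) (hIRR : StIRR) (hNT : StNT) (hDES : StDES) (hPENR : StPENR)
    (hRELM : StRELM) (hVERT : StVERT) (hHOR : StHOR) (hRAT : StRAT) (hUNI : StUNI)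
    {n m N d : ℕ} (hn : 1 ≤ n) (hm : m + n + 2 = d) (h7 : 7 * N + 4 ≤ m) (hN : (n + 1) * N < d)
    (h2N : 2 * (N + n - 1) < d)
    {F : MvPolynomial (Fin (n + 2)) ℂ} (hs : Sm F) (hF : F.IsHomogeneous d)
    {K : Type} [Field K] [Algebra ℂ K] {x : Fin (n + 2) → K} (hx0 : x 0 = 1) (hx : aeval x F = 0)
    (hgen : IntermediateField.adjoin ℂ (Set.range x) = ⊤) (hK : Algebra.trdeg ℂ K = n)
    (L : Type) [Field L] [Algebra ℂ L] [Algebra L K] [IsScalarTower ℂ L K] [FiniteDimensional L K]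
    (hr : Module.finrank L K < (N + 1) * (m + 2 - N))
    (hg : ∀ ω : (Fin n → Derivation ℂ L L) → L, Pool.Agent.W602.GT.IsPluri 1 ω →
      (∀ P : Place ℂ L, Pool.Agent.W602.GT.Divisorial n P → Pool.Agent.W602.GT.RegAt P ω) →
      ∀ D, ω D = 0) :
    Nonempty (L →ₐ[ℂ] FractionRing (MvPolynomial (Fin n) ℂ)) := by
  classical
  let Ω := AlgebraicClosure L
  have hcL : CharZero L := charZero_of_injective_algebraMap (algebraMap ℂ L).injective
  have hcΩ : CharZero Ω := charZero_of_injective_algebraMap (algebraMap ℂ Ω).injective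
  have hessK : Algebra.EssFiniteType ℂ K := by
    rw [← IntermediateField.fg_top_iff]
    exact ⟨Finset.univ.image x, by
      rw [Finset.coe_image, Finset.coe_univ, Set.image_univ, hgen]⟩
  have hessL : Algebra.EssFiniteType ℂ L := Pool.Agent.TH466.QG.ess_below (K := K)
  have hL : Algebra.trdeg ℂ L = n := Pool.Agent.Y184.NT.trdeg_below (K := K) hK
  have hnt : ∀ f : (K →ₐ[ℂ] Ω) →₀ ℤ, (∀ σ : K →ₐ[ℂ] Ω, (f σ = 1 ∧ Fix L σ) ∨
      (f σ = 0 ∧ ¬ Fix L σ)) → NullTrace n f := hNT n L K Ω hL hg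
  refine unirational_rel hB1 hIRR hDES hPENR hRELM hVERT hHOR hRAT hUNI hn hm h7 hN h2N hs hF hx0 hx
    hgen hK L Ω hr ?_
  intro f hf
  obtain ⟨g, hg1, -⟩ := exists_fibre (K := K) (Ω := Ω) L
  have h1 : f = g.mapRange (Int.cast : ℤ → Ω) Int.cast_zero := by
    ext σ
    rw [Finsupp.mapRange_apply]
    rcases hf σ with h | h <;> rcases hg1 σ with h' | h'
    · rw [h.1, h'.1, Int.cast_one]
    · exact absurd h.2 h'.2
    · exact absurd h'.2 h.2
    · rw [h.1, h'.1, Int.cast_zero]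
  rw [h1]
  exact relF_of_null hs hF hm hx hK (hnt g hg1)

/-- Varieties which are not of general type and which are dominated by a smooth hypersurface with
small degree are unirational. -/
theorem unirational_gt (hB1 : StB1) (hIRR : StIRR) (hDES : StDES) (hPENR : StPENR)
    (hRELM : StRELM) (hVERT : StVERT) (hHOR : StHOR) (hRAT : StRAT) (hUNI : StUNI) (hGTR : StGTR)
    (hGTC : StGTC)
    {n m N d : ℕ} (hn : 1 ≤ n) (hm : m + n + 2 = d) (h7 : 7 * N + 4 ≤ m) (hN : (n + 1) * N < d)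
    (h3N : 3 * (N + n - 1) < d)
    {F : MvPolynomial (Fin (n + 2)) ℂ} (hs : Sm F) (hF : F.IsHomogeneous d)
    {K : Type} [Field K] [Algebra ℂ K] {x : Fin (n + 2) → K} (hx0 : x 0 = 1) (hx : aeval x F = 0)
    (hgen : IntermediateField.adjoin ℂ (Set.range x) = ⊤) (hK : Algebra.trdeg ℂ K = n)
    (L : Type) [Field L] [Algebra ℂ L] [Algebra L K] [IsScalarTower ℂ L K] [FiniteDimensional L K]
    (hr : 2 * Module.finrank L K < (N + 1) * (m + 2 - N))
    (hg : ¬ Pool.Agent.W602.GT.GeneralType ℂ L n) :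
    Nonempty (L →ₐ[ℂ] FractionRing (MvPolynomial (Fin n) ℂ)) := by
  classical
  have hessK : Algebra.EssFiniteType ℂ K := by
    rw [← IntermediateField.fg_top_iff]
    exact ⟨Finset.univ.image x, by
      rw [Finset.coe_image, Finset.coe_univ, Set.image_univ, hgen]⟩
  have hessL : Algebra.EssFiniteType ℂ L := Pool.Agent.TH466.QG.ess_below (K := K)
  refine unirational_rel hB1 hIRR hDES hPENR hRELM hVERT hHOR hRAT hUNI hn hm h7 hN (by omega) hs hF
    hx0 hx hgen hK L (AlgebraicClosure L) (by omega) ?_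
  intro f hf
  rcases hGTR n L K (AlgebraicClosure L) F d m hn hs hF hm x hx0 hx hgen hK hg f hf with
    h | ⟨τ, lam, hlam, hτ, h⟩
  · exact h
  · exact hGTC n L K (AlgebraicClosure L) F d m N hn hs hF hm h7 hN h3N x hx0 hx hgen hK hr f hf τ
      lam hlam hτ h

end Pool.Agent.N162.HN
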