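import Pool.Agent.N162.HN.Deg

/-!
The valuations over a smooth hypersurface are trivial on the base of a family of curves of low degree.
-/

set_option autoImplicit false

open FF Pool.Agent.W603.LV Pool.Agent.Y184.NT Pool.Agent.N162.BC MvPolynomial IntermediateField

namespace Pool.Agent.N162.HN

/-- homomorphisms of a field generated by `x` with given values -/
theorem exists_hom {ι K L : Type} [Field K] [Algebra ℂ K] [Field L] [Algebra ℂ L] {x : ι → K}
    {y : ι → L} (hgen : IntermediateField.adjoin ℂ (Set.range x) = ⊤)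
    (h : ∀ P : MvPolynomial ι ℂ, aeval y P = 0 ↔ aeval x P = 0) :
    ∃ σ : K →ₐ[ℂ] L, ∀ j, σ (x j) = y j := by
  let e : MvPolynomial ι ℂ →ₐ[ℂ] K := aeval x
  let f : MvPolynomial ι ℂ →ₐ[ℂ] e.range := e.rangeRestrict
  have hf : Function.Surjective f := e.rangeRestrict_surjective
  let ψ : e.range →ₐ[ℂ] L := AlgHom.liftOfSurjective f hf (aeval y) (by
    intro P hP
    have h1 : aeval x P = 0 := by
      have h2 := congrArg Subtype.val (show f P = 0 from hP)
      exact h2
    exact (h P).2 h1)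
  have hψ : ∀ P, ψ (f P) = aeval y P := fun P => AlgHom.liftOfSurjective_apply f hf _ _ P
  have hinj : Function.Injective ψ := by
    rw [injective_iff_map_eq_zero]
    intro a ha
    obtain ⟨P, rfl⟩ := hf a
    rw [hψ, h] at ha
    exact Subtype.ext ha
  have hfr : IsFractionRing e.range K := by
    refine IsFractionRing.of_field _ _ fun z => ?_
    have h1 : z ∈ IntermediateField.adjoin ℂ (Set.range x) := by rw [hgen]; trivial
    obtain ⟨r, hr, s, hs, hz⟩ := IntermediateField.mem_adjoin_iff_div.1 h1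
    rw [Algebra.adjoin_range_eq_range_aeval] at hr hs
    exact ⟨⟨r, hr⟩, ⟨s, hs⟩, hz⟩
  refine ⟨IsFractionRing.liftAlgHom (K := K) hinj, fun j => ?_⟩
  have h1 : x j = algebraMap e.range K (f (X j)) := by
    change x j = aeval x (X j)
    rw [aeval_X]
  rw [h1, IsFractionRing.liftAlgHom_apply, IsFractionRing.lift_algebraMap]
  exact (hψ (X j)).trans (aeval_X _ _)

/-- the transcendence degree is determined by the relations -/
theorem trdeg_of_rel {ι K L : Type} [Field K] [Algebra ℂ K] [Field L] [Algebra ℂ L] {x : ι → K}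
    {y : ι → L} (hgen : IntermediateField.adjoin ℂ (Set.range x) = ⊤)
    (h : ∀ P : MvPolynomial ι ℂ, aeval y P = 0 ↔ aeval x P = 0) :
    Algebra.trdeg ℂ (IntermediateField.adjoin ℂ (Set.range y)) = Algebra.trdeg ℂ K := by
  obtain ⟨y', hy'⟩ : ∃ y' : ι → IntermediateField.adjoin ℂ (Set.range y), ∀ j, (y' j : L) = y j :=
    ⟨fun j => ⟨y j, IntermediateField.subset_adjoin _ _ ⟨j, rfl⟩⟩, fun _ => rfl⟩
  have h1 : ∀ P : MvPolynomial ι ℂ, aeval y' P = 0 ↔ aeval x P = 0 := by
    intro P
    rw [← h P]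
    have h2 : aeval y P = ((aeval y' P : IntermediateField.adjoin ℂ (Set.range y)) : L) := by
      have h3 := MvPolynomial.comp_aeval_apply
        (φ := (IntermediateField.adjoin ℂ (Set.range y)).val) y' P
      have h4 : (fun j => (IntermediateField.adjoin ℂ (Set.range y)).val (y' j)) = y :=
        funext hy'
      rw [h4] at h3
      exact h3.symm
    rw [h2]
    exact ⟨fun h => by rw [h]; rfl, fun h => Subtype.ext h⟩
  have hgen' : IntermediateField.adjoin ℂ (Set.range y') = ⊤ := by
    rw [eq_top_iff]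
    intro z _
    have h2 : IntermediateField.lift (IntermediateField.adjoin ℂ (Set.range y')) =
        IntermediateField.adjoin ℂ (Set.range y) := by
      unfold IntermediateField.lift
      rw [IntermediateField.adjoin_map]
      congr 1
      ext w
      constructor
      · rintro ⟨_, ⟨j, rfl⟩, rfl⟩
        exact ⟨j, (hy' j).symm⟩
      · rintro ⟨j, rfl⟩
        exact ⟨y' j, ⟨j, rfl⟩, hy' j⟩
    have h3 : (z : L) ∈ IntermediateField.lift (IntermediateField.adjoin ℂ (Set.range y')) := by
      rw [h2]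
      exact z.2
    exact (IntermediateField.mem_lift z).1 h3
  obtain ⟨σ, -⟩ := exists_hom hgen h1
  obtain ⟨τ, -⟩ := exists_hom hgen' fun P => (h1 P).symm
  exact le_antisymm (trdeg_le_of_injective τ τ.injective) (trdeg_le_of_injective σ σ.injective)

theorem vert_ (hSPX : StSPX) (hRDI : StRDI) (hGX : StGX) (hVC : StVC) : StVERT := by
  classical
  intro n K Ω _ _ _ _ _ F d N hn hs hF hNd x hx0 hx hgen hK hΩ C hC O hO a
  by_contra ha
  have hcΩ : CharZero Ω := charZero_of_injective_algebraMap (algebraMap ℂ Ω).injective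
  obtain ⟨Λ, E', i1, i2, i3, i4, i5, i6, i7, i8, S, φ, hX, hspz, htr, hgenΛ, hrel⟩ :=
    hSPX n K Ω x hx0 hgen hK hΩ hn C O hO ⟨a, ha⟩
  have hcΛ : CharZero Λ := charZero_of_injective_algebraMap (algebraMap ℂ Λ).injective
  have hcE' : CharZero E' := charZero_of_injective_algebraMap (algebraMap Λ E').injective
  obtain ⟨Y, hY⟩ : ∃ Y : Fin (n + 2) → E', Y = fun j => φ ⟨C.X j, hX j⟩ := ⟨_, rfl⟩
  rw [← hY] at hgenΛ
  have hrel' : ∀ P : MvPolynomial (Fin (n + 2)) ℂ, aeval Y P = 0 ↔ aeval x P = 0 := by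
    intro P
    rw [hY]
    exact hrel P
  have hY0 : Y 0 = 1 := by
    have h1 := (hrel' (X 0 - 1)).2 (by simp [hx0])
    simpa [sub_eq_zero] using h1
  obtain ⟨bad, hbad⟩ := hGX n Ω C.E C.X C.good.one C.good.gen
  obtain ⟨bad', hbad'⟩ := hGX n Λ E' Y hY0 hgenΛ
  refine hVC n Λ E' F d N hn hs hF Y hY0 hgenΛ ((hrel' F).2 hx) htr ?_ ⟨bad ∪ bad', ?_⟩ hNd
  · -- transcendence degree
    rw [← hK]
    exact trdeg_of_rel hgen hrel'
  · intro s hs'
    rw [Finset.notMem_union] at hs'
    obtain ⟨hg1, hg2⟩ := hbad s hs'.1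
    obtain ⟨hg3, -⟩ := hbad' s hs'.2
    have hu : tw s C.X 1 ∈ S := by
      unfold tw
      rw [Function.update_self]
      refine sum_mem fun k _ => mul_mem (pow_mem (natCast_mem S s) _) (hX _)
    have hφ : φ ⟨tw s C.X 1, hu⟩ = tw s Y 1 := by
      have h1 : (⟨tw s C.X 1, hu⟩ : S) =
          ∑ k : Fin (n + 1), (s : S) ^ (k : ℕ) * ⟨C.X k.succ, hX k.succ⟩ := by
        apply Subtype.ext
        rw [AddSubmonoidClass.coe_finset_sum]
        change tw s C.X 1 = _
        unfold tw
        rw [Function.update_self]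
        refine Finset.sum_congr rfl fun k _ => ?_
        rfl
      rw [h1, map_sum]
      unfold tw
      rw [Function.update_self]
      refine Finset.sum_congr rfl fun k _ => ?_
      rw [map_mul, map_pow, map_natCast, hY]
    have h2 := hRDI Ω C.E Λ E' O S φ hspz ⟨tw s C.X 1, hu⟩ (by rw [hφ]; exact hg3.tr) (IsFF.finite hg1.tr)
    rw [hφ] at h2
    refine h2.trans ?_
    rw [hg2 C.good]
    exact hC

end Pool.Agent.N162.HN
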