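import Pool.Agent.N162.HN.Facts
import Pool.Agent.N162.HN.Vert
import Pool.Agent.N162.HN.FinalB
import Pool.Agent.N607.HN.VC
import Pool.Agent.N966.HO.RELM
import Pool.Agent.N160.HO.GTR
import Pool.Agent.N459.HO.Gtc

/-!
The images of smooth hypersurfaces of small degree: unirational if the geometric genus is zero, or if
they are not of general type.
-/

set_option autoImplicit false

open FF MvPolynomial

namespace Pool.Agent.N162.HN

theorem fVC : StVC := Pool.Agent.N607.HN.vc_ fGX fNM CV.fDERc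
theorem fVERT : StVERT := vert_ fSPX fRDI fGX fVC
theorem fRELM : StRELM := Pool.Agent.N966.HO.relm_
theorem fGTR : StGTR := Pool.Agent.N160.HO.gtr_ fTAU
theorem fGTC : StGTC := Pool.Agent.N459.HO.gtc_ fB1 fIRR fCONFO fMAINO fRELM

section

variable {n m N d : ℕ} (hn : 1 ≤ n) (hm : m + n + 2 = d) (h7 : 7 * N + 4 ≤ m)
  (hN : (n + 1) * N < d) {F : MvPolynomial (Fin (n + 2)) ℂ}
  {K : Type} [Field K] [Algebra ℂ K] {x : Fin (n + 2) → K}

include hn hm h7 hN

theorem mainB (h2N : 2 * (N + n - 1) < d)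
    (hs : ∀ z : Fin (n + 2) → ℂ, z ≠ 0 → ∃ l, eval z (pderiv l F) ≠ 0)
    (hF : F.IsHomogeneous d) (hx0 : x 0 = 1) (hx : aeval x F = 0)
    (hgen : IntermediateField.adjoin ℂ (Set.range x) = ⊤) (hK : Algebra.trdeg ℂ K = n)
    (L : Type) [Field L] [Algebra ℂ L] [Algebra L K] [IsScalarTower ℂ L K] [FiniteDimensional L K]
    (hr : Module.finrank L K < (N + 1) * (m + 2 - N))
    (hg : ∀ ω : (Fin n → Derivation ℂ L L) → L, Pool.Agent.W602.GT.IsPluri 1 ω →
      (∀ P : Place ℂ L, Pool.Agent.W602.GT.Divisorial n P → Pool.Agent.W602.GT.RegAt P ω) →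
      ∀ D, ω D = 0) :
    Nonempty (L →ₐ[ℂ] FractionRing (MvPolynomial (Fin n) ℂ)) :=
  unirational fB1 fIRR fNT fDES fPENR fRELM fVERT fHOR fRAT fUNI hn hm h7 hN h2N hs hF hx0 hx hgen hK
    L hr hg

theorem mainG (h3N : 3 * (N + n - 1) < d)
    (hs : ∀ z : Fin (n + 2) → ℂ, z ≠ 0 → ∃ l, eval z (pderiv l F) ≠ 0)
    (hF : F.IsHomogeneous d) (hx0 : x 0 = 1) (hx : aeval x F = 0)
    (hgen : IntermediateField.adjoin ℂ (Set.range x) = ⊤) (hK : Algebra.trdeg ℂ K = n)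
    (L : Type) [Field L] [Algebra ℂ L] [Algebra L K] [IsScalarTower ℂ L K] [FiniteDimensional L K]
    (hr : 2 * Module.finrank L K < (N + 1) * (m + 2 - N))
    (hg : ¬ Pool.Agent.W602.GT.GeneralType ℂ L n) :
    Nonempty (L →ₐ[ℂ] FractionRing (MvPolynomial (Fin n) ℂ)) :=
  unirational_gt fB1 fIRR fDES fPENR fRELM fVERT fHOR fRAT fUNI fGTR fGTC hn hm h7 hN h3N hs hF hx0
    hx hgen hK L hr hg

end

end Pool.Agent.N162.HN
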