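import Pool.Agent.R882.HQ
import Pool.Agent.R882.CovGT
import Pool.Agent.Y184.NT.Top

/-!
Unirational varieties: equivalent conditions.
-/

set_option autoImplicit false
set_option linter.overlappingInstances false

open FF MvPolynomial Pool.Agent.W602.GT
open Pool.Agent.W619.PQ (IsUniruled)

namespace Pool.Agent.N162.HN

section

variable {L : Type} [Field L] [Algebra ℂ L] {n : ℕ}

/-- the equivalences -/
theorem tfae_unirational [Algebra.EssFiniteType ℂ L] (hn : 1 ≤ n) (hL : Algebra.trdeg ℂ L = n)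
    (hmain : (∀ ω : (Fin n → Derivation ℂ L L) → L, IsPluri 1 ω →
      (∀ P : Place ℂ L, Divisorial n P → RegAt P ω) → ∀ D, ω D = 0) →
      Nonempty (L →ₐ[ℂ] FractionRing (MvPolynomial (Fin n) ℂ))) :
    [(∀ ω : (Fin n → Derivation ℂ L L) → L, IsPluri 1 ω →
      (∀ P : Place ℂ L, Divisorial n P → RegAt P ω) → ∀ D, ω D = 0),
      ¬ KodGe ℂ L n (fun _ => False) 0, ¬ Psef ℂ L n (fun _ => False), IsUniruled ℂ L n,
      Nonempty (L →ₐ[ℂ] FractionRing (MvPolynomial (Fin n) ℂ))].TFAE := by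
  tfae_have 1 → 5 := hmain
  tfae_have 5 → 4 := fun h => Pool.Agent.R882.HQ.uniruled_of_unirational hn h
  tfae_have 4 → 3 := fun h h' =>
    (Pool.Agent.W619.Y.uniruled_neg n hL h).1 ((Pool.Agent.TH466.QG.psef_iff n).1 h')
  tfae_have 3 → 2 := fun h h' => h (psef_of_kodGe h')
  tfae_have 2 → 1 := by
    intro h ω hω hreg D
    by_contra hne
    refine h ⟨1, one_pos, fun _ => ω, fun _ => ⟨hω, fun P hP D' hD' => ?_, fun P hP _ => hreg P hP⟩,
      D, hne, ?_⟩
    · exact hreg P hP D' fun i => Pool.Agent.TH466.QG.derReg_of_log (hD' i)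
    · exact algebraicIndependent_empty_type
  tfae_finish

/-- unirational varieties are not of general type -/
theorem not_gt_of_unirational [Algebra.EssFiniteType ℂ L] (hn : 1 ≤ n) (hL : Algebra.trdeg ℂ L = n)
    (h : Nonempty (L →ₐ[ℂ] FractionRing (MvPolynomial (Fin n) ℂ))) : ¬ GeneralType ℂ L n := by
  intro hgt
  have h1 : IsUniruled ℂ L n := Pool.Agent.R882.HQ.uniruled_of_unirational hn h
  exact (Pool.Agent.W619.Y.uniruled_neg n hL h1).1 ((Pool.Agent.TH466.QG.psef_iff n).1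
    (psef_of_kodGe (Pool.Agent.R882.WR.kod_of_gt hgt)))

end

end Pool.Agent.N162.HN
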